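import Pool.Agent.Q124.Surv.Defs

/-!
# The survival number: basic lemmas
-/

namespace Q124.Surv

open SimpleGraph

variable {V : Type*} {G : SimpleGraph V}

/-- If the distance is `n + 1`, some neighbour is at distance `n`. -/
theorem exists_adj_dist (hc : G.Connected) {u v : V} {n : ℕ} (h : G.dist u v = n + 1) :
    ∃ w, G.Adj u w ∧ G.dist w v = n := by
  obtain ⟨p, hp⟩ := hc.exists_walk_length_eq_dist u v
  cases p with
  | nil =>
    rw [dist_self] at h
    omega
  | @cons _ w _ huw p =>
    refine ⟨w, huw, ?_⟩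
    rw [Walk.length_cons, h] at hp
    have h1 := dist_le p
    have h2 := hc.dist_triangle (u := u) (v := w) (w := v)
    rw [h, dist_eq_one_iff_adj.2 huw] at h2
    omega

theorem ball_finite (hc : G.Connected) (hf : LocFinite G) (v : V) (r : ℕ) :
    {u | G.dist u v ≤ r}.Finite := by
  induction r with
  | zero =>
    apply (Set.finite_singleton v).subset
    intro u hu
    have : G.dist u v = 0 := Nat.le_zero.1 hu
    exact hc.dist_eq_zero_iff.1 this
  | succ r ih =>
    apply (ih.union (ih.biUnion fun w _ => hf w)).subset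
    intro u hu
    rcases Nat.lt_or_ge (G.dist u v) (r + 1) with h | h
    · exact Or.inl (Nat.lt_succ_iff.1 h)
    · right
      have h1 : G.dist u v = r + 1 := le_antisymm hu h
      obtain ⟨w, hw1, hw2⟩ := exists_adj_dist hc h1
      exact Set.mem_biUnion (x := w) (show G.dist w v ≤ r by omega) hw1.symm

theorem dist_map_le (hc : G.Connected) (φ : G ≃g G) (u v : V) :
    G.dist (φ u) (φ v) ≤ G.dist u v := by
  obtain ⟨p, hp⟩ := hc.exists_walk_length_eq_dist u v
  rw [← hp, ← Walk.length_map φ.toHom p]
  exact dist_le _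

theorem dist_map (hc : G.Connected) (φ : G ≃g G) (u v : V) :
    G.dist (φ u) (φ v) = G.dist u v := by
  apply le_antisymm (dist_map_le hc φ u v)
  have := dist_map_le hc φ.symm (φ u) (φ v)
  simpa using this

/-- All vertices outside of a finite set are strictly closer to a site with infinite cell than to
any site with finite cell. -/
theorem exists_dominating (T : Finset V) (hT : T.Nonempty) :
    ∃ K : Set V, K.Finite ∧ ∀ u ∉ K, ∃ a ∈ T, (cell G T a).Infinite ∧
      ∀ w ∈ T, (cell G T w).Finite → G.dist u a < G.dist u w := by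
  classical
  refine ⟨⋃ v ∈ (T.filter fun v => (cell G T v).Finite), cell G T v, ?_, ?_⟩
  · apply Set.Finite.biUnion (Finset.finite_toSet _)
    intro v hv
    exact (Finset.mem_filter.1 hv).2
  · intro u hu
    obtain ⟨v, hvT, hv⟩ := T.exists_min_image (fun v => G.dist u v) hT
    have hcell : u ∈ cell G T v := fun v' hv' => hv v' hv'
    refine ⟨v, hvT, ?_, ?_⟩
    · by_contra hfin
      apply hu
      exact Set.mem_biUnion (x := v) (Finset.mem_filter.2 ⟨hvT, Set.not_infinite.1 hfin⟩) hcell
    · intro w hwT hw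
      by_contra hcon
      push Not at hcon
      apply hu
      refine Set.mem_biUnion (x := w) (Finset.mem_filter.2 ⟨hwT, hw⟩) ?_
      intro v' hv'
      exact hcon.trans (hv v' hv')

theorem numInfinite_eq (T : Finset V) [DecidablePred fun v => (cell G T v).Infinite] :
    numInfinite G T = (T.filter fun v => (cell G T v).Infinite).card := by
  unfold numInfinite
  rw [← Set.ncard_coe_finset]
  congr 1
  ext v
  simp

/-- If `T` has fewer sites with infinite cells than sites, then every vertex `o` is strictly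
dominated by fewer than `n` vertices at distance greater than `D`. -/
theorem exists_dominated (hc : G.Connected) (ht : VertexTransitive G) {D n : ℕ} {T : Finset V}
    (hT : Sites G D n T) (hI : numInfinite G T < n) (o : V) :
    ∃ A : Finset V, A.card < n ∧ (∀ a ∈ A, D < G.dist o a) ∧
      ∃ K : Set V, K.Finite ∧ ∀ u ∉ K, ∃ a ∈ A, G.dist u a < G.dist u o := by
  classical
  let I : Finset V := T.filter fun v => (cell G T v).Infinite
  have hIcard : numInfinite G T = I.card := numInfinite_eq T
  obtain ⟨w, hwT, hwI⟩ : ∃ w ∈ T, w ∉ I := by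
    by_contra hcon
    push Not at hcon
    have h1 : T ⊆ I := hcon
    have h2 := Finset.card_le_card h1
    have h3 := hT.1
    omega
  have hwfin : (cell G T w).Finite := by
    by_contra hinf
    exact hwI (Finset.mem_filter.2 ⟨hwT, hinf⟩)
  obtain ⟨K, hK, hdom⟩ := exists_dominating (G := G) T ⟨w, hwT⟩
  obtain ⟨φ, hφ⟩ := ht w o
  refine ⟨I.image φ, lt_of_le_of_lt Finset.card_image_le (by omega), ?_, φ '' K, hK.image _, ?_⟩
  · intro a ha
    obtain ⟨a', ha', rfl⟩ := Finset.mem_image.1 ha
    rw [← hφ, dist_map hc]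
    exact hT.2 w hwT a' (Finset.mem_filter.1 ha').1 (fun h => hwI (h ▸ ha'))
  · intro u hu
    have hu' : φ.symm u ∉ K := by
      intro h
      exact hu ⟨φ.symm u, h, by simp⟩
    obtain ⟨a, haT, hainf, ha⟩ := hdom _ hu'
    refine ⟨φ a, Finset.mem_image_of_mem _ (Finset.mem_filter.2 ⟨haT, hainf⟩), ?_⟩
    have h1 := ha w hwT hwfin
    rw [← hφ]
    have h2 := dist_map hc φ (φ.symm u) a
    have h3 := dist_map hc φ (φ.symm u) w
    rw [RelIso.apply_symm_apply] at h2 h3
    omega

/-- The survival number is infinite if for every `n` there is `D` such that sets of at least `n`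
sites at distances greater than `D` have at least `n` infinite cells. -/
theorem survival_eq_top (h : ∀ n : ℕ, ∃ D : ℕ, ∀ T, Sites G D n T → n ≤ numInfinite G T) :
    survival G = ⊤ := by
  by_contra hs
  obtain ⟨N, hN⟩ := ENat.ne_top_iff_exists.1 hs
  obtain ⟨D, hD⟩ := h (N + 1)
  have h1 : ((N + 1 : ℕ) : ℕ∞) ≤ survival G := by
    apply le_sSup
    exact ⟨N + 1, by omega, rfl, D, hD⟩
  rw [← hN] at h1
  have h2 : N + 1 ≤ N := by exact_mod_cast h1
  omega

/-- A separated set can be enlarged. -/
theorem exists_enlarge [Infinite V] (hc : G.Connected) (hf : LocFinite G) (D : ℕ)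
    (T : Finset V) (hT : ∀ v₁ ∈ T, ∀ v₂ ∈ T, v₁ ≠ v₂ → D < G.dist v₁ v₂) (n : ℕ)
    (hn : T.card ≤ n) : ∃ T' : Finset V, T ⊆ T' ∧ T'.card = n ∧
      ∀ v₁ ∈ T', ∀ v₂ ∈ T', v₁ ≠ v₂ → D < G.dist v₁ v₂ := by
  classical
  induction n, hn using Nat.le_induction with
  | base => exact ⟨T, Finset.Subset.refl _, rfl, hT⟩
  | succ n hn ih =>
    obtain ⟨T', h1, h2, h3⟩ := ih
    obtain ⟨x, hx⟩ : ∃ x, x ∉ ⋃ v ∈ T', {u | G.dist u v ≤ D} := by
      by_contra hcon
      push Not at hcon
      have hfin : (⋃ v ∈ T', {u | G.dist u v ≤ D}).Finite :=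
        Set.Finite.biUnion (Finset.finite_toSet _) fun v _ => ball_finite hc hf v D
      rw [Set.eq_univ_of_forall hcon] at hfin
      exact Set.infinite_univ hfin
    have hx' : ∀ v ∈ T', D < G.dist x v := by
      intro v hv
      by_contra hcon
      push Not at hcon
      exact hx (Set.mem_biUnion (x := v) hv hcon)
    have hxT : x ∉ T' := by
      intro h
      have := hx' x h
      rw [dist_self] at this
      omega
    refine ⟨insert x T', h1.trans (Finset.subset_insert _ _), ?_, ?_⟩
    · rw [Finset.card_insert_of_notMem hxT, h2]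
    · intro v₁ hv₁ v₂ hv₂ hne
      rcases Finset.mem_insert.1 hv₁ with e₁ | e₁
      · rcases Finset.mem_insert.1 hv₂ with e₂ | e₂
        · exact absurd (e₁.trans e₂.symm) hne
        · rw [e₁]
          exact hx' v₂ e₂
      · rcases Finset.mem_insert.1 hv₂ with e₂ | e₂
        · rw [e₂, SimpleGraph.dist_comm]
          exact hx' v₁ e₁
        · exact h3 v₁ e₁ v₂ e₂ hne

/-- The survival number is at most `k` if for every `D` there is a set of at most `k + 1` sites at
distances greater than `D` one of which has a finite cell. -/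
theorem survival_le [Infinite V] (hc : G.Connected) (hf : LocFinite G) (k : ℕ)
    (h : ∀ D : ℕ, ∃ (T : Finset V) (w : V), T.card ≤ k + 1 ∧ w ∈ T ∧
      (∀ v₁ ∈ T, ∀ v₂ ∈ T, v₁ ≠ v₂ → D < G.dist v₁ v₂) ∧ (cell G T w).Finite) :
    survival G ≤ (k : ℕ∞) := by
  classical
  apply sSup_le
  rintro _ ⟨m, -, rfl, D, hm⟩
  by_contra hcon
  have hkm : k + 1 ≤ m := by
    by_contra hlt
    apply hcon
    exact_mod_cast (by omega : m ≤ k)
  obtain ⟨T, w, h1, h2, h3, h4⟩ := h D
  obtain ⟨T', h5, h6, h7⟩ := exists_enlarge hc hf D T h3 m (h1.trans hkm)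
  have h8 := hm T' ⟨h6.ge, h7⟩
  rw [numInfinite_eq] at h8
  have h9 : T'.filter (fun v => (cell G T' v).Infinite) ⊆ T'.erase w := by
    intro v hv
    obtain ⟨hv1, hv2⟩ := Finset.mem_filter.1 hv
    refine Finset.mem_erase.2 ⟨?_, hv1⟩
    rintro rfl
    apply hv2
    apply h4.subset
    intro u hu v' hv'
    exact hu v' (h5 hv')
  have h10 := Finset.card_le_card h9
  rw [Finset.card_erase_of_mem (h5 h2)] at h10
  omega

end Q124.Surv
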