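import Pool.Agent.Q124.Surv.Basic

/-!
# The 3-regular tree

Vertices are pairs `(f, n)`, where `n` is an integer and `f` a finite set of integers smaller than
`n`.  The parent of `(f, n)` is `(f \ {n - 1}, n - 1)`, so that its two children are `(f, n + 1)`
and `(f ∪ {n}, n + 1)`.
-/

namespace Q124.Surv

open SimpleGraph

/-- The vertices of the tree. -/
def Tr : Type := {v : Finset ℤ × ℤ // ∀ e ∈ v.1, e < v.2}

/-- The parent of a vertex. -/
def Tr.parent (v : Tr) : Tr :=
  ⟨(v.1.1.erase (v.1.2 - 1), v.1.2 - 1), fun e he => by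
    have h1 := Finset.mem_erase.1 he
    have h2 := v.2 e h1.2
    omega⟩

/-- The 3-regular tree: every vertex is adjacent to its parent. -/
def tree : SimpleGraph Tr where
  Adj u v := u.parent = v ∨ v.parent = u
  symm := ⟨fun _ _ h => h.symm⟩
  loopless := ⟨fun v h => by
    have h1 : v.parent = v := h.elim id id
    have h2 := congrArg (fun w : Tr => w.1.2) h1
    simp only [Tr.parent] at h2
    omega⟩

/-- The height. -/
def ht (v : Tr) : ℤ := v.1.2

theorem Tr.ext' {u v : Tr} (h1 : u.1.1 = v.1.1) (h2 : u.1.2 = v.1.2) : u = v :=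
  Subtype.ext (Prod.ext h1 h2)

theorem parent_fst (v : Tr) : v.parent.1.1 = v.1.1.erase (v.1.2 - 1) := rfl

theorem parent_snd (v : Tr) : v.parent.1.2 = v.1.2 - 1 := rfl

/-- The vertex `(∅, n)`. -/
def base (n : ℤ) : Tr := ⟨(∅, n), fun _ he => absurd he (Finset.notMem_empty _)⟩

/-- The child `(f, n + 1)`. -/
def child0 (v : Tr) : Tr := ⟨(v.1.1, v.1.2 + 1), fun e he => (v.2 e he).trans (by omega)⟩

/-- The child `(f ∪ {n}, n + 1)`. -/
def child1 (v : Tr) : Tr := ⟨(insert v.1.2 v.1.1, v.1.2 + 1), fun e he => by
  rcases Finset.mem_insert.1 he with rfl | h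
  · exact Int.lt_succ _
  · exact (v.2 e h).trans (by omega)⟩

theorem notMem_self (v : Tr) : v.1.2 ∉ v.1.1 := fun h => lt_irrefl _ (v.2 _ h)

theorem parent_child0 (v : Tr) : (child0 v).parent = v := by
  apply Tr.ext'
  · rw [parent_fst]
    simp only [child0, add_sub_cancel_right]
    exact Finset.erase_eq_of_notMem (notMem_self v)
  · rw [parent_snd]
    simp [child0]

theorem parent_child1 (v : Tr) : (child1 v).parent = v := by
  apply Tr.ext'
  · rw [parent_fst]
    simp only [child1, add_sub_cancel_right]
    exact Finset.erase_insert (notMem_self v)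
  · rw [parent_snd]
    simp [child1]

theorem eq_child {u v : Tr} (h : u.parent = v) : u = child0 v ∨ u = child1 v := by
  subst h
  by_cases h1 : u.1.2 - 1 ∈ u.1.1
  · right
    apply Tr.ext'
    · simp only [child1, parent_fst, parent_snd]
      exact (Finset.insert_erase h1).symm
    · simp [child1, parent_snd]
  · left
    apply Tr.ext'
    · simp only [child0, parent_fst]
      exact (Finset.erase_eq_of_notMem h1).symm
    · simp [child0, parent_snd]

theorem child_ne (v : Tr) : child0 v ≠ child1 v := by
  intro h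
  have h1 := congrArg (fun w : Tr => w.1.1) h
  simp only [child0, child1] at h1
  apply notMem_self v
  rw [h1]
  exact Finset.mem_insert_self _ _

theorem parent_ne_child0 (v : Tr) : v.parent ≠ child0 v := by
  intro h
  have h1 := congrArg (fun w : Tr => w.1.2) h
  simp only [child0, parent_snd] at h1
  omega

theorem parent_ne_child1 (v : Tr) : v.parent ≠ child1 v := by
  intro h
  have h1 := congrArg (fun w : Tr => w.1.2) h
  simp only [child1, parent_snd] at h1
  omega

theorem neighborSet_tree (v : Tr) : tree.neighborSet v = {v.parent, child0 v, child1 v} := by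
  ext u
  simp only [mem_neighborSet, Set.mem_insert_iff, Set.mem_singleton_iff]
  constructor
  · rintro (h | h)
    · exact Or.inl h.symm
    · exact Or.inr (eq_child h)
  · rintro (rfl | rfl | rfl)
    · exact Or.inl rfl
    · exact Or.inr (parent_child0 v)
    · exact Or.inr (parent_child1 v)

theorem tree_locFinite : LocFinite tree := by
  intro v
  rw [neighborSet_tree]
  exact Set.toFinite _

theorem tree_degree (v : Tr) : (tree_locFinite v).toFinset.card = 3 := by
  classical
  have h : (tree_locFinite v).toFinset = {v.parent, child0 v, child1 v} := by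
    ext u
    rw [Set.Finite.mem_toFinset, neighborSet_tree]
    simp
  rw [h, Finset.card_insert_of_notMem, Finset.card_insert_of_notMem, Finset.card_singleton]
  · simp [child_ne]
  · simp [parent_ne_child0, parent_ne_child1]

instance : Infinite Tr := by
  apply Infinite.of_injective base
  intro m n h
  exact congrArg (fun w : Tr => w.1.2) h

/-! ### Automorphisms -/

/-- A permutation of the vertices which commutes with `parent` is an automorphism. -/
def autOf (e : Tr ≃ Tr) (h : ∀ v, e v.parent = (e v).parent) : tree ≃g tree :=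
  ⟨e, by
    intro u v
    change ((e u).parent = e v ∨ (e v).parent = e u) ↔ (u.parent = v ∨ v.parent = u)
    rw [← h, ← h, e.injective.eq_iff, e.injective.eq_iff]⟩

/-- The shift by `k`. -/
def shift (k : ℤ) (v : Tr) : Tr :=
  ⟨(v.1.1.image (· + k), v.1.2 + k), fun e he => by
    obtain ⟨a, ha, rfl⟩ := Finset.mem_image.1 he
    have := v.2 a ha
    simp only
    omega⟩

theorem shift_shift (k l : ℤ) (v : Tr) : shift k (shift l v) = shift (l + k) v := by
  apply Tr.ext'
  · simp only [shift, Finset.image_image]
    congr 1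
    funext e
    simp only [Function.comp_apply]
    ring
  · simp only [shift]
    ring

theorem shift_zero (v : Tr) : shift 0 v = v := by
  apply Tr.ext' <;> simp [shift]

def shiftEquiv (k : ℤ) : Tr ≃ Tr where
  toFun := shift k
  invFun := shift (-k)
  left_inv v := by rw [shift_shift, add_neg_cancel, shift_zero]
  right_inv v := by rw [shift_shift, neg_add_cancel, shift_zero]

theorem shift_parent (k : ℤ) (v : Tr) : shift k v.parent = (shift k v).parent := by
  apply Tr.ext'
  · simp only [shift, parent_fst]
    ext e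
    simp only [Finset.mem_image, Finset.mem_erase]
    constructor
    · rintro ⟨a, ⟨h1, h2⟩, rfl⟩
      exact ⟨by omega, a, h2, rfl⟩
    · rintro ⟨h1, a, h2, rfl⟩
      exact ⟨a, ⟨by omega, h2⟩, rfl⟩
  · simp only [shift, parent_snd]
    ring

/-- Toggle the elements of `h`. -/
def toggle (h : Finset ℤ) (v : Tr) : Tr :=
  ⟨((symmDiff v.1.1 h).filter (· < v.1.2), v.1.2), fun _ he => (Finset.mem_filter.1 he).2⟩

theorem mem_toggle (h : Finset ℤ) (v : Tr) (e : ℤ) :
    e ∈ (toggle h v).1.1 ↔ (¬ (e ∈ v.1.1 ↔ e ∈ h)) ∧ e < v.1.2 := by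
  simp only [toggle, Finset.mem_filter, Finset.mem_symmDiff]
  tauto

theorem toggle_toggle (h : Finset ℤ) (v : Tr) : toggle h (toggle h v) = v := by
  apply Tr.ext'
  · ext e
    rw [mem_toggle, mem_toggle]
    have h1 : (toggle h v).1.2 = v.1.2 := rfl
    rw [h1]
    by_cases he : e < v.1.2
    · simp only [he, and_true]
      tauto
    · have h2 : e ∉ v.1.1 := fun h3 => he (v.2 e h3)
      simp [he, h2]
  · rfl

def toggleEquiv (h : Finset ℤ) : Tr ≃ Tr where
  toFun := toggle h
  invFun := toggle h
  left_inv := toggle_toggle h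
  right_inv := toggle_toggle h

theorem toggle_parent (h : Finset ℤ) (v : Tr) :
    toggle h v.parent = (toggle h v).parent := by
  apply Tr.ext'
  · ext e
    rw [mem_toggle, parent_fst, parent_fst, Finset.mem_erase, Finset.mem_erase, mem_toggle,
      parent_snd]
    have h1 : (toggle h v).1.2 = v.1.2 := rfl
    rw [h1]
    constructor
    · rintro ⟨h2, h3⟩
      have h4 : e ≠ v.1.2 - 1 := by omega
      refine ⟨h4, ?_, by omega⟩
      simpa [h4] using h2
    · rintro ⟨h2, h3, h4⟩
      refine ⟨?_, by omega⟩
      simpa [h2] using h3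
  · rfl

theorem tree_transitive : VertexTransitive tree := by
  intro u v
  let k : ℤ := v.1.2 - u.1.2
  let h : Finset ℤ := symmDiff (shift k u).1.1 v.1.1
  refine ⟨autOf ((shiftEquiv k).trans (toggleEquiv h)) ?_, ?_⟩
  · intro w
    change toggle h (shift k w.parent) = (toggle h (shift k w)).parent
    rw [shift_parent, toggle_parent]
  · change toggle h (shift k u) = v
    apply Tr.ext'
    · ext e
      rw [mem_toggle]
      have h1 : (shift k u).1.2 = v.1.2 := by
        simp only [shift, k]
        ring
      rw [h1]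
      simp only [h, Finset.mem_symmDiff]
      constructor
      · rintro ⟨h2, h3⟩
        tauto
      · intro h2
        exact ⟨by tauto, v.2 e h2⟩
    · simp only [toggle, shift, k]
      ring

/-! ### Connectedness and distances -/

theorem adj_parent (v : Tr) : tree.Adj v v.parent := Or.inl rfl

/-- The `k`-th ancestor. -/
theorem ancestor (k : ℕ) (v : Tr) : (Tr.parent^[k] v).1.2 = v.1.2 - k ∧
    ∀ e, e ∈ (Tr.parent^[k] v).1.1 ↔ e ∈ v.1.1 ∧ e < v.1.2 - k := by
  induction k with
  | zero =>
    refine ⟨by simp, fun e => ?_⟩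
    simp only [Function.iterate_zero, id_eq, Nat.cast_zero, sub_zero]
    exact ⟨fun h => ⟨h, v.2 e h⟩, fun h => h.1⟩
  | succ k ih =>
    rw [Function.iterate_succ_apply']
    constructor
    · rw [parent_snd, ih.1]
      push_cast
      ring
    · intro e
      rw [parent_fst, Finset.mem_erase, ih.1, ih.2]
      push_cast
      constructor
      · rintro ⟨h1, h2, h3⟩
        exact ⟨h2, by omega⟩
      · rintro ⟨h1, h2⟩
        exact ⟨by omega, h1, by omega⟩

theorem ancestor_walk (k : ℕ) (v : Tr) : ∃ w : tree.Walk v (Tr.parent^[k] v), w.length = k := by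
  induction k with
  | zero => exact ⟨Walk.nil, rfl⟩
  | succ k ih =>
    obtain ⟨w, hw⟩ := ih
    rw [Function.iterate_succ_apply']
    exact ⟨w.concat (adj_parent _), by rw [Walk.length_concat, hw]⟩

theorem tree_connected : tree.Connected := by
  have hr : ∀ v : Tr, ∃ N : ℕ, ∀ n : ℕ, N ≤ n → tree.Reachable v (base (-n)) := by
    intro v
    -- a lower bound for the lamps and the height
    obtain ⟨B, hB⟩ : ∃ B : ℕ, (∀ e ∈ v.1.1, -(B : ℤ) ≤ e) ∧ -(B : ℤ) ≤ v.1.2 := by
      obtain ⟨L, hL⟩ := (insert v.1.2 v.1.1).bddBelow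
      have h2 : -((L.natAbs : ℕ) : ℤ) ≤ L := by omega
      refine ⟨L.natAbs, fun e he => ?_, ?_⟩
      · have : L ≤ e := hL (by simp [he])
        omega
      · have : L ≤ v.1.2 := hL (by simp)
        omega
    refine ⟨B, fun n hn => ?_⟩
    have h1 : 0 ≤ v.1.2 + n := by omega
    have h2 : Tr.parent^[(v.1.2 + n).toNat] v = base (-n) := by
      obtain ⟨h3, h4⟩ := ancestor (v.1.2 + n).toNat v
      apply Tr.ext'
      · ext e
        rw [h4]
        simp only [base, Finset.notMem_empty, iff_false, not_and, not_lt]
        intro he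
        have := hB.1 e he
        omega
      · rw [h3]
        simp only [base]
        omega
    obtain ⟨w, -⟩ := ancestor_walk (v.1.2 + n).toNat v
    rw [h2] at w
    exact ⟨w⟩
  have : Nonempty Tr := ⟨base 0⟩
  refine Connected.mk fun u v => ?_
  obtain ⟨N, hN⟩ := hr u
  obtain ⟨M, hM⟩ := hr v
  exact (hN (max N M) (le_max_left _ _)).trans (hM (max N M) (le_max_right _ _)).symm

theorem ht_walk {u v : Tr} (w : tree.Walk u v) : |ht u - ht v| ≤ w.length := by
  induction w with
  | nil => simp
  | @cons u x v h w ih =>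
    rw [Walk.length_cons]
    have h1 := abs_sub_le (ht u) (ht x) (ht v)
    have h2 : |ht u - ht x| ≤ 1 := by
      rcases h with h | h
      · rw [← h]
        simp [ht, parent_snd]
      · rw [← h]
        simp [ht, parent_snd]
    push_cast
    linarith

theorem ht_dist (u v : Tr) : |ht u - ht v| ≤ tree.dist u v := by
  obtain ⟨w, hw⟩ := tree_connected.exists_walk_length_eq_dist u v
  rw [← hw]
  exact ht_walk w

/-- The `j`-th subtree (for `j ≥ 1`): the vertices below the child `({-j}, -j + 1)` of
`(∅, -j)`. -/
def sub (j : ℤ) : Set Tr := {v | -j < v.1.2 ∧ ∀ e ≤ -j, e ∈ v.1.1 ↔ e = -j}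

theorem sub_disjoint {i j : ℤ} {v : Tr} (hi : v ∈ sub i) (hj : v ∈ sub j) : i = j := by
  rcases lt_trichotomy i j with h | h | h
  · have h1 := (hj.2 (-j) le_rfl).2 rfl
    have h2 := (hi.2 (-j) (by omega)).1 h1
    omega
  · exact h
  · have h1 := (hi.2 (-i) le_rfl).2 rfl
    have h2 := (hj.2 (-i) (by omega)).1 h1
    omega

/-- A subtree is entered through `(∅, -j)`. -/
theorem sub_enter {j : ℤ} {x y : Tr} (hx : x ∉ sub j) (hy : y ∈ sub j) (h : tree.Adj x y) :
    x = base (-j) := by
  rcases h with h | h
  · -- `y` is the parent of `x`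
    exfalso
    apply hx
    subst h
    obtain ⟨h1, h2⟩ := hy
    rw [parent_snd] at h1
    refine ⟨by omega, fun e he => ?_⟩
    rw [← h2 e he, parent_fst, Finset.mem_erase]
    constructor
    · intro h3
      exact ⟨by omega, h3⟩
    · exact fun h3 => h3.2
  · -- `x` is the parent of `y`
    subst h
    obtain ⟨h1, h2⟩ := hy
    have h3 : y.1.2 - 1 = -j := by
      by_contra hne
      apply hx
      refine ⟨by rw [parent_snd]; omega, fun e he => ?_⟩
      rw [← h2 e he, parent_fst, Finset.mem_erase]
      constructor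
      · exact fun h3 => h3.2
      · intro h3
        exact ⟨by omega, h3⟩
    apply Tr.ext'
    · rw [parent_fst, h3]
      ext e
      simp only [base, Finset.mem_erase, Finset.notMem_empty, iff_false, not_and]
      intro h4 h5
      have h6 := y.2 e h5
      exact h4 ((h2 e (by omega)).1 h5)
    · rw [parent_snd, h3]
      rfl

theorem sub_walk {j : ℤ} {x y : Tr} (w : tree.Walk x y) (hx : x ∉ sub j) (hy : y ∈ sub j) :
    base (-j) ∈ w.support := by
  induction w with
  | nil => exact absurd hy hx
  | @cons x z y h w ih =>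
    by_cases hz : z ∈ sub j
    · have := sub_enter hx hz h
      rw [← this]
      exact Walk.start_mem_support _
    · rw [Walk.support_cons]
      exact List.mem_cons_of_mem _ (ih hz hy)

theorem sub_dist {j : ℤ} {x y : Tr} (hx : x ∉ sub j) (hy : y ∈ sub j) :
    tree.dist x (base (-j)) + tree.dist (base (-j)) y ≤ tree.dist x y := by
  classical
  obtain ⟨w, hw⟩ := tree_connected.exists_walk_length_eq_dist x y
  have h := sub_walk w hx hy
  have h1 := dist_le (w.takeUntil _ h)
  have h2 := dist_le (w.dropUntil _ h)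
  have h3 := congrArg Walk.length (w.take_spec h)
  rw [Walk.length_append] at h3
  omega

theorem dist_base (j : ℕ) : tree.dist (base 0) (base (-j)) ≤ j := by
  obtain ⟨w, hw⟩ := ancestor_walk j (base 0)
  have h : Tr.parent^[j] (base 0) = base (-j) := by
    obtain ⟨h1, h2⟩ := ancestor j (base 0)
    apply Tr.ext'
    · ext e
      rw [h2]
      simp [base]
    · rw [h1]
      simp [base]
  rw [h] at w
  have h3 : ∃ w : tree.Walk (base 0) (base (-j)), w.length = j := by
    obtain ⟨w, hw⟩ := ancestor_walk j (base 0)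
    rw [h] at w
    obtain ⟨w', hw'⟩ := ancestor_walk j (base 0)
    exact ⟨w'.copy rfl h, by rw [Walk.length_copy, hw']⟩
  obtain ⟨w, hw⟩ := h3
  exact (dist_le w).trans hw.le

/-- The vertex `({-j}, t)` of the `j`-th subtree. -/
def deep (j t : ℕ) : Tr := ⟨({-(j : ℤ)}, (t : ℤ) + 1 - j), fun e he => by
  rw [Finset.mem_singleton] at he
  omega⟩

theorem deep_mem (j t : ℕ) : deep j t ∈ sub j := by
  refine ⟨?_, fun e he => ?_⟩
  · simp only [deep]
    omega
  · simp [deep]

theorem dist_deep_le (j t : ℕ) : tree.dist (base (-j)) (deep j t) ≤ t + 1 := by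
  have h : Tr.parent^[t + 1] (deep j t) = base (-j) := by
    obtain ⟨h1, h2⟩ := ancestor (t + 1) (deep j t)
    apply Tr.ext'
    · ext e
      rw [h2]
      simp only [deep, base, Finset.mem_singleton, Finset.notMem_empty, iff_false, not_and]
      rintro rfl
      push_cast
      omega
    · rw [h1]
      simp only [deep, base]
      push_cast
      ring
  obtain ⟨w, hw⟩ := ancestor_walk (t + 1) (deep j t)
  have h4 := dist_le (w.copy rfl h)
  rw [Walk.length_copy, hw, SimpleGraph.dist_comm] at h4
  exact h4

theorem le_dist_deep (j t : ℕ) : t + 1 ≤ tree.dist (base (-j)) (deep j t) := by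
  have h1 := ht_dist (base (-j)) (deep j t)
  have h2 : ht (base (-j)) - ht (deep j t) = -((t : ℤ) + 1) := by
    simp only [ht, base, deep]
    ring
  rw [h2, abs_neg, abs_of_nonneg (by omega)] at h1
  exact_mod_cast h1

end Q124.Surv
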