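import Pool.Agent.Q124.Surv.Strong
import Pool.Agent.Q124.Surv.Tree

/-!
# The Cartesian product of the 3-regular tree with the two-way infinite path

Its survival number is infinite.
-/

namespace Q124.Surv

open SimpleGraph

/-- The two-way infinite path. -/
def lineZ : SimpleGraph ℤ where
  Adj m n := |m - n| = 1
  symm := ⟨fun m n h => by rw [abs_sub_comm]; exact h⟩
  loopless := ⟨fun m h => by simp at h⟩

theorem lineZ_walk (k : ℕ) : ∀ m n : ℤ, |m - n| = k → ∃ w : lineZ.Walk m n, w.length = k := by
  induction k with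
  | zero =>
    intro m n h
    rw [Nat.cast_zero, abs_eq_zero, sub_eq_zero] at h
    subst h
    exact ⟨Walk.nil, rfl⟩
  | succ k ih =>
    intro m n h
    push_cast at h
    rcases le_total 0 (m - n) with h0 | h0
    · rw [abs_of_nonneg h0] at h
      obtain ⟨w, hw⟩ := ih (m - 1) n (by rw [abs_of_nonneg (by omega)]; omega)
      exact ⟨Walk.cons (show lineZ.Adj m (m - 1) by simp [lineZ]) w, by
        rw [Walk.length_cons, hw]⟩
    · rw [abs_of_nonpos h0] at h
      obtain ⟨w, hw⟩ := ih (m + 1) n (by rw [abs_of_nonpos (by omega)]; omega)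
      exact ⟨Walk.cons (show lineZ.Adj m (m + 1) by simp [lineZ]) w, by
        rw [Walk.length_cons, hw]⟩

theorem lineZ_connected : lineZ.Connected := by
  refine Connected.mk fun m n => ?_
  obtain ⟨w, -⟩ := lineZ_walk |m - n|.toNat m n (Int.toNat_of_nonneg (abs_nonneg _)).symm
  exact ⟨w⟩

theorem lineZ_dist (m n : ℤ) : (lineZ.dist m n : ℤ) = |m - n| := by
  apply le_antisymm
  · obtain ⟨w, hw⟩ := lineZ_walk |m - n|.toNat m n (Int.toNat_of_nonneg (abs_nonneg _)).symm
    have h1 := dist_le w
    rw [hw] at h1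
    have h2 := Int.toNat_of_nonneg (abs_nonneg (m - n))
    rw [← h2]
    exact_mod_cast h1
  · obtain ⟨w, hw⟩ := lineZ_connected.exists_walk_length_eq_dist m n
    rw [← hw]
    clear hw
    induction w with
    | nil => simp
    | @cons a b c h w ih =>
      have h1 := abs_sub_le a b c
      have h2 : |a - b| = 1 := h
      rw [Walk.length_cons]
      push_cast
      linarith

variable {V : Type*} {G : SimpleGraph V}

theorem box_connected (hc : G.Connected) : (G □ lineZ).Connected := hc.boxProd lineZ_connected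

theorem box_dist (hc : G.Connected) (p q : V × ℤ) :
    ((G □ lineZ).dist p q : ℤ) = G.dist p.1 q.1 + |p.2 - q.2| := by
  rw [← lineZ_dist]
  have h1 := edist_boxProd (G := G) (H := lineZ) p q
  rw [← ((box_connected hc).preconnected p q).coe_dist_eq_edist,
    ← (hc.preconnected p.1 q.1).coe_dist_eq_edist,
    ← (lineZ_connected.preconnected p.2 q.2).coe_dist_eq_edist] at h1
  exact_mod_cast h1

theorem box_locFinite (hf : LocFinite G) : LocFinite (G □ lineZ) := by
  intro p
  apply (((Set.finite_singleton p.1).union (hf p.1)).prod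
    (Set.finite_Icc (p.2 - 1) (p.2 + 1))).subset
  intro q hq
  have hq' : G.Adj p.1 q.1 ∧ p.2 = q.2 ∨ lineZ.Adj p.2 q.2 ∧ p.1 = q.1 := boxProd_adj.1 hq
  rcases hq' with ⟨h1, h2⟩ | ⟨h1, h2⟩
  · exact ⟨Or.inr h1, by omega, by omega⟩
  · have h3 : |p.2 - q.2| = 1 := h1
    have h4 := abs_le.1 h3.le
    exact ⟨Or.inl h2.symm, by omega, by omega⟩

theorem box_transitive (ht : VertexTransitive G) : VertexTransitive (G □ lineZ) := by
  intro p q
  obtain ⟨φ, hφ⟩ := ht p.1 q.1
  let e : V × ℤ ≃ V × ℤ := φ.toEquiv.prodCongr (Equiv.addRight (q.2 - p.2))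
  refine ⟨⟨e, ?_⟩, ?_⟩
  · intro a b
    rw [boxProd_adj, boxProd_adj]
    change (G.Adj (φ a.1) (φ b.1) ∧ a.2 + (q.2 - p.2) = b.2 + (q.2 - p.2) ∨
      |a.2 + (q.2 - p.2) - (b.2 + (q.2 - p.2))| = 1 ∧ φ a.1 = φ b.1) ↔
      (G.Adj a.1 b.1 ∧ a.2 = b.2 ∨ |a.2 - b.2| = 1 ∧ a.1 = b.1)
    rw [φ.map_adj_iff, add_sub_add_right_eq_sub, add_left_inj, φ.injective.eq_iff]
  · change (φ p.1, p.2 + (q.2 - p.2)) = q
    rw [hφ, add_sub_cancel]

/-- **The survival number of the Cartesian product of the 3-regular tree with `ℤ` is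
infinite.** -/
theorem cart_survival : survival (tree □ lineZ) = ⊤ := by
  classical
  have hc := box_connected tree_connected
  have ht := box_transitive tree_transitive
  apply survival_eq_top
  intro n
  refine ⟨2 * n, fun T hT => ?_⟩
  by_contra hI
  push Not at hI
  obtain ⟨A, hA, hfar, K, hK, hdom⟩ := exists_dominated hc ht hT hI (base 0, (0 : ℤ))
  -- for each `j` a vertex of `A` in the `j`-th subtree
  have hsub : ∀ j : Fin n, ∃ a ∈ A, a.1 ∈ sub (((j : ℕ) + 1 : ℕ) : ℤ) := by
    intro j
    set i : ℕ := (j : ℕ) + 1 with hi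
    obtain ⟨t, ht⟩ : ∃ t : ℕ, (deep i t, (0 : ℤ)) ∉ K := by
      by_contra hcon
      push Not at hcon
      have hinf : (Set.range fun t : ℕ => (deep i t, (0 : ℤ))).Infinite := by
        apply Set.infinite_range_of_injective
        intro s t hst
        have h1 := congrArg (fun p : Tr × ℤ => p.1.1.2) hst
        simp only [deep] at h1
        omega
      apply hinf
      apply hK.subset
      rintro _ ⟨t, rfl⟩
      exact hcon t
    obtain ⟨a, ha, hlt⟩ := hdom _ ht
    refine ⟨a, ha, ?_⟩
    by_contra hna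
    have h1 := sub_dist hna (deep_mem i t)
    have h2 := le_dist_deep i t
    have h3 := dist_deep_le i t
    have h4 := dist_base i
    have h5 := tree_connected.dist_triangle (u := base 0) (v := base (-(i : ℤ))) (w := deep i t)
    have h6 := tree_connected.dist_triangle (u := base 0) (v := base (-(i : ℤ))) (w := a.1)
    have h7 := hfar a ha
    have h8 := box_dist tree_connected (deep i t, (0 : ℤ)) a
    have h9 := box_dist tree_connected (deep i t, (0 : ℤ)) (base 0, (0 : ℤ))
    have h10 := box_dist tree_connected (base 0, (0 : ℤ)) a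
    simp only [sub_self, abs_zero, add_zero] at h9
    rw [SimpleGraph.dist_comm (u := deep i t) (v := a.1)] at h8
    rw [SimpleGraph.dist_comm (u := deep i t) (v := base 0)] at h9
    rw [SimpleGraph.dist_comm (u := a.1) (v := base (-(i : ℤ)))] at h1
    have h11 : i ≤ n := by
      have := j.2
      omega
    have h12 := abs_nonneg ((0 : ℤ) - a.2)
    simp only at h8 h9 h10
    omega
  choose f hf1 hf2 using hsub
  have hinj : Function.Injective f := by
    intro i j hij
    have h1 := sub_disjoint (hf2 i) (by rw [hij]; exact hf2 j)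
    apply Fin.ext
    omega
  have hcard : (Finset.univ : Finset (Fin n)).card ≤ A.card :=
    Finset.card_le_card_of_injOn f (fun j _ => hf1 j) hinj.injOn
  rw [Finset.card_univ, Fintype.card_fin] at hcard
  omega

end Q124.Surv
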