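import Pool.Agent.Q124.Surv.Basic

/-!
# The Diestel-Leader graph DL(2,2)

Its vertices are pairs `(f, m)` of a finite set of integers (the lamps that are on) and an integer
(the position of the lamplighter).  The lamp `e` is on the edge between the positions `e` and
`e + 1` and can be toggled when the lamplighter moves along this edge.
-/

namespace Q124.Surv

open SimpleGraph

/-- Vertices of DL(2,2). -/
abbrev DLV : Type := Finset ℤ × ℤ

/-- The Diestel-Leader graph DL(2,2), a Cayley graph of the lamplighter group. -/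
def dl : SimpleGraph DLV where
  Adj p q := (q.2 = p.2 + 1 ∧ ∀ e, e ≠ p.2 → (e ∈ p.1 ↔ e ∈ q.1)) ∨
    (p.2 = q.2 + 1 ∧ ∀ e, e ≠ q.2 → (e ∈ p.1 ↔ e ∈ q.1))
  symm := ⟨fun p q h => by
    rcases h with ⟨h1, h2⟩ | ⟨h1, h2⟩
    · exact Or.inr ⟨h1, fun e he => (h2 e he).symm⟩
    · exact Or.inl ⟨h1, fun e he => (h2 e he).symm⟩⟩
  loopless := ⟨fun p h => by
    rcases h with ⟨h1, -⟩ | ⟨h1, -⟩ <;> omega⟩

/-- The interval `[l, r]` contains the positions of `p` and `q`, and the edges at which the lamps
of `p` and `q` differ. -/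
def Valid (p q : DLV) (l r : ℤ) : Prop :=
  l ≤ p.2 ∧ l ≤ q.2 ∧ p.2 ≤ r ∧ q.2 ≤ r ∧ ∀ e, ¬ (e ∈ p.1 ↔ e ∈ q.1) → l ≤ e ∧ e < r

theorem dl_walk (N : ℕ) : ∀ (p q : DLV) (l r : ℤ), Valid p q l r →
    2 * (r - l) - |p.2 - q.2| = N → ∃ w : dl.Walk p q, w.length = N := by
  classical
  induction N with
  | zero =>
    intro p q l r h hN
    obtain ⟨h1, h2, h3, h4, h5⟩ := h
    have h6 : |p.2 - q.2| ≤ r - l := by
      rw [abs_le]
      constructor <;> omega
    have h7 := abs_nonneg (p.2 - q.2)
    have h8 : r = l := by omega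
    have h9 : p = q := by
      apply Prod.ext
      · ext e
        by_contra hne
        have := h5 e hne
        omega
      · omega
    subst h9
    exact ⟨Walk.nil, rfl⟩
  | succ N ih =>
    intro p q l r h hN
    obtain ⟨h1, h2, h3, h4, h5⟩ := h
    rcases le_or_gt p.2 q.2 with hpq | hpq
    · rw [abs_of_nonpos (by omega)] at hN
      by_cases hl : l < p.2
      · -- to the left
        obtain ⟨w, hw⟩ := ih (p.1, p.2 - 1) q l r
          ⟨by simp only; omega, h2, by simp only; omega, h4, h5⟩ (by
            simp only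
            rw [abs_of_nonpos (by omega)]
            push_cast at hN
            omega)
        have hadj : dl.Adj p (p.1, p.2 - 1) := Or.inr ⟨by simp, fun e _ => Iff.rfl⟩
        exact ⟨Walk.cons hadj w, by rw [Walk.length_cons, hw]⟩
      · -- to the right
        have hlp : l = p.2 := by omega
        let f : Finset ℤ := if p.2 ∈ q.1 then insert p.2 p.1 else p.1.erase p.2
        have hf1 : ∀ e, e ≠ p.2 → (e ∈ p.1 ↔ e ∈ f) := by
          intro e he
          simp only [f]
          split_ifs <;> simp [he]
        have hf2 : p.2 ∈ f ↔ p.2 ∈ q.1 := by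
          simp only [f]
          split_ifs with h <;> simp [h]
        have hadj : dl.Adj p (f, p.2 + 1) := Or.inl ⟨rfl, hf1⟩
        have hdiff : ∀ e, ¬ (e ∈ f ↔ e ∈ q.1) → l + 1 ≤ e ∧ e < r := by
          intro e he
          have hne : e ≠ p.2 := by
            rintro rfl
            exact he hf2
          rw [← hf1 e hne] at he
          have := h5 e he
          omega
        by_cases hn : q.2 = p.2
        · obtain ⟨w, hw⟩ := ih (f, p.2 + 1) q l r
            ⟨by simp only; omega, h2, by simp only; push_cast at hN; omega, h4,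
              fun e he => ⟨by have := hdiff e he; omega, (hdiff e he).2⟩⟩ (by
              simp only
              rw [abs_of_nonneg (by omega)]
              push_cast at hN
              omega)
          exact ⟨Walk.cons hadj w, by rw [Walk.length_cons, hw]⟩
        · obtain ⟨w, hw⟩ := ih (f, p.2 + 1) q (l + 1) r
            ⟨by simp only; omega, by omega, by simp only; omega, h4, hdiff⟩ (by
              simp only
              rw [abs_of_nonpos (by omega)]
              push_cast at hN
              omega)
          exact ⟨Walk.cons hadj w, by rw [Walk.length_cons, hw]⟩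
    · rw [abs_of_nonneg (by omega)] at hN
      by_cases hr : p.2 < r
      · -- to the right
        obtain ⟨w, hw⟩ := ih (p.1, p.2 + 1) q l r
          ⟨by simp only; omega, h2, by simp only; omega, h4, h5⟩ (by
            simp only
            rw [abs_of_nonneg (by omega)]
            push_cast at hN
            omega)
        have hadj : dl.Adj p (p.1, p.2 + 1) := Or.inl ⟨rfl, fun e _ => Iff.rfl⟩
        exact ⟨Walk.cons hadj w, by rw [Walk.length_cons, hw]⟩
      · -- to the left
        have hrp : r = p.2 := by omega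
        let f : Finset ℤ := if p.2 - 1 ∈ q.1 then insert (p.2 - 1) p.1 else p.1.erase (p.2 - 1)
        have hf1 : ∀ e, e ≠ p.2 - 1 → (e ∈ p.1 ↔ e ∈ f) := by
          intro e he
          simp only [f]
          split_ifs <;> simp [he]
        have hf2 : p.2 - 1 ∈ f ↔ p.2 - 1 ∈ q.1 := by
          simp only [f]
          split_ifs with h <;> simp [h]
        have hadj : dl.Adj p (f, p.2 - 1) := Or.inr ⟨by simp, hf1⟩
        have hdiff : ∀ e, ¬ (e ∈ f ↔ e ∈ q.1) → l ≤ e ∧ e < r - 1 := by
          intro e he
          have hne : e ≠ p.2 - 1 := by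
            rintro rfl
            exact he hf2
          rw [← hf1 e hne] at he
          have := h5 e he
          omega
        obtain ⟨w, hw⟩ := ih (f, p.2 - 1) q l (r - 1)
            ⟨by simp only; omega, by omega, by simp only; omega, by omega, hdiff⟩ (by
              simp only
              rw [abs_of_nonneg (by omega)]
              push_cast at hN
              omega)
        exact ⟨Walk.cons hadj w, by rw [Walk.length_cons, hw]⟩

theorem Valid.nonneg {p q : DLV} {l r : ℤ} (h : Valid p q l r) :
    |p.2 - q.2| ≤ r - l := by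
  obtain ⟨h1, h2, h3, h4, -⟩ := h
  rw [abs_le]
  constructor <;> omega

theorem dl_dist_le {p q : DLV} {l r : ℤ} (h : Valid p q l r) :
    (dl.dist p q : ℤ) ≤ 2 * (r - l) - |p.2 - q.2| := by
  have h1 := h.nonneg
  have h2 := abs_nonneg (p.2 - q.2)
  obtain ⟨N, hN⟩ : ∃ N : ℕ, 2 * (r - l) - |p.2 - q.2| = N :=
    ⟨(2 * (r - l) - |p.2 - q.2|).toNat, by omega⟩
  obtain ⟨w, hw⟩ := dl_walk N p q l r h hN
  have h3 := dist_le w
  rw [hw] at h3
  rw [hN]
  exact_mod_cast h3

theorem exists_valid (p q : DLV) : ∃ l r, Valid p q l r := by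
  classical
  let S : Finset ℤ := insert p.2 (insert q.2 (p.1 ∪ q.1))
  obtain ⟨l, hl⟩ := S.bddBelow
  obtain ⟨r, hr⟩ := S.bddAbove
  have e1 : p.2 ∈ (S : Set ℤ) := by simp [S]
  have e2 : q.2 ∈ (S : Set ℤ) := by simp [S]
  refine ⟨l, r + 1, hl e1, hl e2, by have := hr e1; omega, by have := hr e2; omega, ?_⟩
  intro e he
  have e3 : e ∈ (S : Set ℤ) := by
    simp only [S, Finset.coe_insert, Finset.coe_union, Set.mem_insert_iff, Set.mem_union,
      Finset.mem_coe]
    tauto
  have h1 := hl e3
  have h2 := hr e3
  omega

theorem dl_connected : dl.Connected := by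
  refine Connected.mk fun p q => ?_
  obtain ⟨l, r, h⟩ := exists_valid p q
  have h1 := h.nonneg
  have h2 := abs_nonneg (p.2 - q.2)
  obtain ⟨N, hN⟩ : ∃ N : ℕ, 2 * (r - l) - |p.2 - q.2| = N :=
    ⟨(2 * (r - l) - |p.2 - q.2|).toNat, by omega⟩
  obtain ⟨w, -⟩ := dl_walk N p q l r h hN
  exact ⟨w⟩

theorem dl_walk_valid {p q : DLV} (w : dl.Walk p q) :
    ∃ l r, Valid p q l r ∧ 2 * (r - l) - |p.2 - q.2| ≤ w.length := by
  induction w with
  | @nil p =>
    refine ⟨p.2, p.2, ⟨le_rfl, le_rfl, le_rfl, le_rfl, fun e he => absurd Iff.rfl he⟩, by simp⟩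
  | @cons p x q h w ih =>
    obtain ⟨l, r, ⟨h1, h2, h3, h4, h5⟩, h6⟩ := ih
    rw [Walk.length_cons]
    rcases h with ⟨h7, h8⟩ | ⟨h7, h8⟩
    · -- to the right
      have hd : ∀ e, ¬ (e ∈ p.1 ↔ e ∈ q.1) → e = p.2 ∨ l ≤ e ∧ e < r := by
        intro e he
        by_cases hne : e = p.2
        · exact Or.inl hne
        · right
          rw [h8 e hne] at he
          exact h5 e he
      rcases le_or_gt l p.2 with hl | hl
      · refine ⟨l, r, ⟨hl, h2, by omega, h4, ?_⟩, ?_⟩
        · intro e he
          rcases hd e he with h | h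
          · omega
          · exact h
        · have h9 := abs_sub_le x.2 p.2 q.2
          have h10 : |x.2 - p.2| = 1 := by
            rw [h7, add_sub_cancel_left, abs_one]
          push_cast
          linarith
      · refine ⟨l - 1, r, ⟨by omega, by omega, by omega, h4, ?_⟩, ?_⟩
        · intro e he
          rcases hd e he with h | h
          · omega
          · omega
        · rw [abs_of_nonpos (by omega)] at h6 ⊢
          push_cast
          omega
    · -- to the left
      have hd : ∀ e, ¬ (e ∈ p.1 ↔ e ∈ q.1) → e = x.2 ∨ l ≤ e ∧ e < r := by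
        intro e he
        by_cases hne : e = x.2
        · exact Or.inl hne
        · right
          rw [h8 e hne] at he
          exact h5 e he
      rcases le_or_gt p.2 r with hr | hr
      · refine ⟨l, r, ⟨by omega, h2, by omega, h4, ?_⟩, ?_⟩
        · intro e he
          rcases hd e he with h | h
          · omega
          · exact h
        · have h9 := abs_sub_le x.2 p.2 q.2
          have h10 : |x.2 - p.2| = 1 := by
            rw [h7, sub_add_cancel_left, abs_neg, abs_one]
          push_cast
          linarith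
      · refine ⟨l, r + 1, ⟨by omega, by omega, by omega, by omega, ?_⟩, ?_⟩
        · intro e he
          rcases hd e he with h | h
          · omega
          · omega
        · rw [abs_of_nonneg (by omega)] at h6 ⊢
          push_cast
          omega

theorem dl_dist (p q : DLV) :
    ∃ l r, Valid p q l r ∧ (dl.dist p q : ℤ) = 2 * (r - l) - |p.2 - q.2| := by
  obtain ⟨w, hw⟩ := dl_connected.exists_walk_length_eq_dist p q
  obtain ⟨l, r, h1, h2⟩ := dl_walk_valid w
  rw [hw] at h2
  exact ⟨l, r, h1, le_antisymm (dl_dist_le h1) h2⟩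

/-! ### Automorphisms -/

/-- The shift. -/
def dlShift (k : ℤ) : dl ≃g dl where
  toFun p := (p.1.map (Equiv.addRight k).toEmbedding, p.2 + k)
  invFun p := (p.1.map (Equiv.addRight (-k)).toEmbedding, p.2 + -k)
  left_inv p := by
    apply Prod.ext
    · ext e
      simp only [Finset.mem_map_equiv, Equiv.addRight_symm, Equiv.coe_addRight]
      simp
    · simp
  right_inv p := by
    apply Prod.ext
    · ext e
      simp only [Finset.mem_map_equiv, Equiv.addRight_symm, Equiv.coe_addRight]
      simp
    · simp
  map_rel_iff' := by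
    intro p q
    simp only [dl, Equiv.coe_fn_mk, Finset.mem_map_equiv, Equiv.addRight_symm, Equiv.coe_addRight]
    apply or_congr
    · apply and_congr
      · constructor <;> intro h <;> omega
      · constructor
        · intro h e he
          have := h (e + k) (by omega)
          simpa using this
        · intro h e he
          exact h (e + -k) (by omega)
    · apply and_congr
      · constructor <;> intro h <;> omega
      · constructor
        · intro h e he
          have := h (e + k) (by omega)
          simpa using this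
        · intro h e he
          exact h (e + -k) (by omega)

open Classical in
/-- Toggle lamps. -/
noncomputable def dlToggle (h : Finset ℤ) : dl ≃g dl where
  toFun p := (symmDiff p.1 h, p.2)
  invFun p := (symmDiff p.1 h, p.2)
  left_inv p := by simp
  right_inv p := by simp
  map_rel_iff' := by
    intro p q
    have key : ∀ e, (e ∈ symmDiff p.1 h ↔ e ∈ symmDiff q.1 h) ↔ (e ∈ p.1 ↔ e ∈ q.1) := by
      intro e
      simp only [Finset.mem_symmDiff]
      tauto
    simp only [dl, Equiv.coe_fn_mk, key]

theorem dl_transitive : VertexTransitive dl := by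
  classical
  intro p q
  refine ⟨(dlShift (q.2 - p.2)).trans (dlToggle (symmDiff (dlShift (q.2 - p.2) p).1 q.1)), ?_⟩
  rw [RelIso.trans_apply]
  apply Prod.ext
  · change symmDiff (dlShift (q.2 - p.2) p).1 (symmDiff (dlShift (q.2 - p.2) p).1 q.1) = q.1
    rw [symmDiff_symmDiff_cancel_left]
  · change p.2 + (q.2 - p.2) = q.2
    ring

/-- The reflection. -/
def dlRefl : dl ≃g dl where
  toFun p := (p.1.map (Equiv.subLeft (-1)).toEmbedding, -p.2)
  invFun p := (p.1.map (Equiv.subLeft (-1)).toEmbedding, -p.2)
  left_inv p := by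
    apply Prod.ext
    · ext e
      simp only [Finset.mem_map_equiv]
      simp [Equiv.subLeft]
    · simp
  right_inv p := by
    apply Prod.ext
    · ext e
      simp only [Finset.mem_map_equiv]
      simp [Equiv.subLeft]
    · simp
  map_rel_iff' := by
    intro p q
    simp only [dl, Equiv.coe_fn_mk, Finset.mem_map_equiv]
    have key : ∀ e : ℤ, (Equiv.subLeft (-1 : ℤ)).symm e = -e - 1 := by
      intro e
      simp [Equiv.subLeft]
      ring
    simp only [key]
    constructor
    · rintro (⟨h1, h2⟩ | ⟨h1, h2⟩)
      · refine Or.inr ⟨by omega, fun e he => ?_⟩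
        have := h2 (-e - 1) (by omega)
        simpa using this
      · refine Or.inl ⟨by omega, fun e he => ?_⟩
        have := h2 (-e - 1) (by omega)
        simpa using this
    · rintro (⟨h1, h2⟩ | ⟨h1, h2⟩)
      · exact Or.inr ⟨by omega, fun e he => h2 (-e - 1) (by omega)⟩
      · exact Or.inl ⟨by omega, fun e he => h2 (-e - 1) (by omega)⟩

theorem mem_dlRefl (p : DLV) (e : ℤ) : e ∈ (dlRefl p).1 ↔ -e - 1 ∈ p.1 := by
  change e ∈ p.1.map (Equiv.subLeft (-1)).toEmbedding ↔ _
  rw [Finset.mem_map_equiv]
  have key : (Equiv.subLeft (-1 : ℤ)).symm e = -e - 1 := by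
    simp [Equiv.subLeft]
    ring
  rw [key]

theorem dlRefl_snd (p : DLV) : (dlRefl p).2 = -p.2 := rfl

theorem dlRefl_dlRefl (p : DLV) : dlRefl (dlRefl p) = p := by
  apply Prod.ext
  · ext e
    rw [mem_dlRefl, mem_dlRefl]
    have : - (-e - 1) - 1 = e := by ring
    rw [this]
  · rw [dlRefl_snd, dlRefl_snd, neg_neg]

theorem dl_locFinite : LocFinite dl := by
  classical
  intro p
  apply Set.Finite.subset (Set.toFinite (({p.1, insert p.2 p.1, p.1.erase p.2,
    insert (p.2 - 1) p.1, p.1.erase (p.2 - 1)} : Set (Finset ℤ)) ×ˢ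
    ({p.2 + 1, p.2 - 1} : Set ℤ)))
  have key : ∀ (f g : Finset ℤ) (a : ℤ), (∀ e, e ≠ a → (e ∈ f ↔ e ∈ g)) →
      g = insert a f ∨ g = f.erase a := by
    intro f g a h
    by_cases ha : a ∈ g
    · left
      ext e
      by_cases he : e = a
      · subst he
        simp [ha]
      · rw [Finset.mem_insert, ← h e he]
        simp [he]
    · right
      ext e
      by_cases he : e = a
      · subst he
        simp [ha]
      · rw [Finset.mem_erase, ← h e he]
        simp [he]
  intro q hq
  simp only [Set.mem_prod, Set.mem_insert_iff, Set.mem_singleton_iff]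
  rcases hq with ⟨h1, h2⟩ | ⟨h1, h2⟩
  · refine ⟨?_, Or.inl h1⟩
    rcases key _ _ _ h2 with h | h
    · exact Or.inr (Or.inl h)
    · exact Or.inr (Or.inr (Or.inl h))
  · have h3 : q.2 = p.2 - 1 := by omega
    rw [h3] at h2
    refine ⟨?_, Or.inr h3⟩
    rcases key _ _ _ h2 with h | h
    · exact Or.inr (Or.inr (Or.inr (Or.inl h)))
    · exact Or.inr (Or.inr (Or.inr (Or.inr h)))

end Q124.Surv
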