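import Pool.Agent.Q124.Surv.DL

/-!
# Voronoi cells in DL(2,2)

If `T` has `k` infinite cells, it has at most `k + k ^ 2` elements.  The survival number is at
most `6`.
-/

namespace Q124.Surv

open SimpleGraph

/-- A binary tree with `n` branching points has at least `n` leaves. -/
theorem branch_card (n : ℕ) : ∀ (X : Finset DLV) (A : Finset (Finset ℤ)), X.card = n →
    (∀ x ∈ X, ∀ e ∈ x.1, e < x.2) →
    (∀ x ∈ X, ∀ b : Bool, ∃ a ∈ A, (∀ e < x.2, e ∈ a ↔ e ∈ x.1) ∧ (x.2 ∈ a ↔ b = true)) →
    n ≤ A.card := by
  induction n with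
  | zero => intro X A _ _ _; exact Nat.zero_le _
  | succ n ih =>
    intro X A hX hn h
    have hne : X.Nonempty := by
      rw [← Finset.card_pos]
      omega
    obtain ⟨x, hx, hmax⟩ := X.exists_max_image (fun x => x.2) hne
    obtain ⟨a₁, ha₁, h1, h2⟩ := h x hx true
    obtain ⟨a₀, ha₀, h3, h4⟩ := h x hx false
    simp only [iff_true] at h2
    simp only [Bool.false_eq_true, iff_false] at h4
    have h5 := ih (X.erase x) (A.erase a₀) (by rw [Finset.card_erase_of_mem hx]; omega)
      (fun x' hx' => hn x' (Finset.mem_of_mem_erase hx')) ?_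
    · rw [Finset.card_erase_of_mem ha₀] at h5
      have := Finset.card_pos.2 ⟨a₀, ha₀⟩
      omega
    · intro x' hx' b
      obtain ⟨hxx, hx'⟩ := Finset.mem_erase.1 hx'
      obtain ⟨a, ha, h6, h7⟩ := h x' hx' b
      by_cases haa : a = a₀
      · subst haa
        have h8 : x'.2 < x.2 := by
          apply lt_of_le_of_ne (hmax x' hx')
          intro heq
          apply hxx
          apply Prod.ext _ heq
          ext e
          constructor
          · intro he
            have h9 := hn x' hx' e he
            rw [heq] at h9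
            rw [← h3 e h9]
            exact (h6 e (by rw [heq]; exact h9)).2 he
          · intro he
            have h9 := hn x hx e he
            rw [← h6 e (by rw [heq]; exact h9)]
            exact (h3 e h9).2 he
        refine ⟨a₁, Finset.mem_erase.2 ⟨?_, ha₁⟩, ?_, ?_⟩
        · rintro rfl
          exact h4 h2
        · intro e he
          rw [h1 e (by omega), ← h3 e (by omega)]
          exact h6 e he
        · rw [h1 _ h8, ← h3 _ h8]
          exact h7
      · exact ⟨a, Finset.mem_erase.2 ⟨haa, ha⟩, h6, h7⟩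

/-- The part of the lamps on the left of the lamplighter. -/
def leftPart (w : DLV) : DLV := (w.1.filter (· < w.2), w.2)

theorem mem_leftPart (w : DLV) (e : ℤ) : e ∈ (leftPart w).1 ↔ e ∈ w.1 ∧ e < w.2 :=
  Finset.mem_filter

theorem right_witness {A W : Finset DLV} {K : Set DLV} (hK : K.Finite)
    (hdom : ∀ u ∉ K, ∃ a ∈ A, ∀ w ∈ W, dl.dist u a < dl.dist u w) {w : DLV} (hw : w ∈ W)
    (b : Bool) : ∃ a ∈ A, (∀ e < w.2, e ∈ a.1 ↔ e ∈ w.1) ∧ (w.2 ∈ a.1 ↔ b = true) := by
  let F : Finset ℤ := if b = true then insert w.2 (w.1.filter (· < w.2)) else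
    w.1.filter (· < w.2)
  have hF1 : ∀ e < w.2, e ∈ F ↔ e ∈ w.1 := by
    intro e he
    simp only [F]
    split_ifs <;> simp [he, he.ne]
  have hF2 : w.2 ∈ F ↔ b = true := by
    simp only [F]
    split_ifs with h <;> simp [h]
  have hF3 : ∀ e ∈ F, e ≤ w.2 := by
    intro e he
    simp only [F] at he
    split_ifs at he
    · rcases Finset.mem_insert.1 he with h | h
      · exact h.le
      · exact (Finset.mem_filter.1 h).2.le
    · exact (Finset.mem_filter.1 he).2.le
  obtain ⟨B, hB⟩ := (insert w.2 w.1).bddAbove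
  have hfin : {t : ℤ | (F, t) ∈ K}.Finite := by
    apply hK.preimage
    intro s _ t _ h
    exact congrArg Prod.snd h
  obtain ⟨t, ht1, ht2⟩ := (Set.Ici_infinite (B + 1)).exists_notMem_finite hfin
  have ht1' : B + 1 ≤ t := ht1
  have hwB : w.2 ≤ B := hB (by simp)
  obtain ⟨a, ha, hlt⟩ := hdom (F, t) ht2
  have hlt := hlt w hw
  have hval : Valid (F, t) w w.2 t := by
    refine ⟨by simp only; omega, le_rfl, le_rfl, by omega, ?_⟩
    intro e he
    simp only at he
    constructor
    · by_contra hcon
      exact he (hF1 e (not_le.1 hcon))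
    · by_contra hcon
      apply he
      constructor
      · intro h
        have := hF3 e h
        omega
      · intro h
        have := hB (a := e) (by simp [h])
        omega
  have h1 := dl_dist_le hval
  have h2 : |((F, t) : DLV).2 - w.2| = t - w.2 := by
    simp only
    rw [abs_of_nonneg (by omega)]
  rw [h2] at h1
  obtain ⟨l, r, h3, h4⟩ := dl_dist (F, t) a
  have h5 := h3.nonneg
  have h6 : t ≤ r := h3.2.2.1
  have hl : w.2 < l := by omega
  refine ⟨a, ha, ?_, ?_⟩
  · intro e he
    rw [← hF1 e he]
    by_contra hcon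
    have := h3.2.2.2.2 e (fun h => hcon h.symm)
    omega
  · rw [← hF2]
    by_contra hcon
    have := h3.2.2.2.2 w.2 (fun h => hcon h.symm)
    omega

theorem left_card {A W : Finset DLV} {K : Set DLV} (hK : K.Finite)
    (hdom : ∀ u ∉ K, ∃ a ∈ A, ∀ w ∈ W, dl.dist u a < dl.dist u w) :
    (W.image leftPart).card ≤ A.card := by
  refine (branch_card _ (W.image leftPart) (A.image Prod.fst) rfl ?_ ?_).trans
    Finset.card_image_le
  · intro x hx e he
    obtain ⟨w, -, rfl⟩ := Finset.mem_image.1 hx
    exact (Finset.mem_filter.1 he).2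
  · intro x hx b
    obtain ⟨w, hw, rfl⟩ := Finset.mem_image.1 hx
    obtain ⟨a, ha, h1, h2⟩ := right_witness hK hdom hw b
    refine ⟨a.1, Finset.mem_image_of_mem _ ha, ?_, h2⟩
    intro e he
    rw [h1 e he]
    simp only [leftPart, Finset.mem_filter]
    exact ⟨fun h => ⟨h, he⟩, fun h => h.1⟩

theorem card_le_sq {A W : Finset DLV} {K : Set DLV} (hK : K.Finite)
    (hdom : ∀ u ∉ K, ∃ a ∈ A, ∀ w ∈ W, dl.dist u a < dl.dist u w) :
    W.card ≤ A.card * A.card := by
  classical
  have h1 := left_card hK hdom
  have h2 : ((W.image dlRefl).image leftPart).card ≤ (A.image dlRefl).card := by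
    apply left_card (K := dlRefl '' K) (hK.image _)
    intro u hu
    have hu' : dlRefl u ∉ K := by
      intro h
      exact hu ⟨dlRefl u, h, dlRefl_dlRefl u⟩
    obtain ⟨a, ha, hlt⟩ := hdom _ hu'
    refine ⟨dlRefl a, Finset.mem_image_of_mem _ ha, ?_⟩
    intro w hw
    obtain ⟨w', hw', rfl⟩ := Finset.mem_image.1 hw
    have h3 := hlt w' hw'
    rw [← dlRefl_dlRefl u, dist_map dl_connected, dist_map dl_connected]
    exact h3
  have h3 : (A.image dlRefl).card ≤ A.card := Finset.card_image_le
  have h4 : W.card ≤ ((W.image leftPart) ×ˢ ((W.image dlRefl).image leftPart)).card := by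
    apply Finset.card_le_card_of_injOn (fun w => (leftPart w, leftPart (dlRefl w)))
    · intro w hw
      rw [Finset.mem_coe, Finset.mem_product]
      exact ⟨Finset.mem_image_of_mem _ hw,
        Finset.mem_image_of_mem _ (Finset.mem_image_of_mem _ hw)⟩
    · intro w _ w' _ h
      have h5 : leftPart w = leftPart w' := congrArg Prod.fst h
      have h7 : leftPart (dlRefl w) = leftPart (dlRefl w') := congrArg Prod.snd h
      have h6 : (leftPart w).2 = (leftPart w').2 := congrArg Prod.snd h5
      change w.2 = w'.2 at h6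
      apply Prod.ext _ h6
      ext e
      rcases lt_or_ge e w.2 with he | he
      · have h8 : e ∈ (leftPart w).1 ↔ e ∈ (leftPart w').1 := by rw [h5]
        rw [mem_leftPart, mem_leftPart] at h8
        constructor
        · intro h9
          exact (h8.1 ⟨h9, he⟩).1
        · intro h9
          exact (h8.2 ⟨h9, by omega⟩).1
      · have h8 : -e - 1 ∈ (leftPart (dlRefl w)).1 ↔ -e - 1 ∈ (leftPart (dlRefl w')).1 := by
          rw [h7]
        have h10 : - (-e - 1) - 1 = e := by ring
        rw [mem_leftPart, mem_leftPart, mem_dlRefl, mem_dlRefl, dlRefl_snd, dlRefl_snd,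
          h10] at h8
        constructor
        · intro h9
          exact (h8.1 ⟨h9, by omega⟩).1
        · intro h9
          exact (h8.2 ⟨h9, by omega⟩).1
  rw [Finset.card_product] at h4
  exact h4.trans (Nat.mul_le_mul h1 (h2.trans h3))

/-- If `T` has fewer than `n` infinite cells, it has fewer than `n + n * n` elements. -/
theorem le_numInfinite {T : Finset DLV} {n : ℕ} (hT : n + n * n ≤ T.card) :
    n ≤ numInfinite dl T := by
  classical
  by_contra hcon
  push Not at hcon
  rw [numInfinite_eq] at hcon
  set A := T.filter fun v => (cell dl T v).Infinite with hA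
  set W := T.filter fun v => ¬ (cell dl T v).Infinite with hW
  have h1 : A.card + W.card = T.card := Finset.card_filter_add_card_filter_not _
  have hne : T.Nonempty := by
    rw [← Finset.card_pos]
    omega
  obtain ⟨K, hK, hdom⟩ := exists_dominating (G := dl) T hne
  have h2 : W.card ≤ A.card * A.card := by
    apply card_le_sq hK
    intro u hu
    obtain ⟨a, ha1, ha2, ha3⟩ := hdom u hu
    refine ⟨a, Finset.mem_filter.2 ⟨ha1, ha2⟩, fun w hw => ?_⟩
    obtain ⟨hw1, hw2⟩ := Finset.mem_filter.1 hw
    exact ha3 w hw1 (Set.not_infinite.1 hw2)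
  have h3 : A.card * A.card ≤ n * n := Nat.mul_le_mul hcon.le hcon.le
  omega

end Q124.Surv
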