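import Pool.Agent.Q124.Surv.DLCount

/-!
# The survival number of DL(2,2) is at most 6
-/

namespace Q124.Surv

open SimpleGraph

/-- The lamps of the `j`-th site. -/
def lamps (K j : ℤ) : Finset ℤ :=
  (if 0 < j then {K + j} else if j < 0 then {-K + j - 1} else ∅) ∪
    (if j = 2 then {0} else if j = -2 then {-1} else ∅)

/-- The position of the `j`-th site. -/
def pos (j : ℤ) : ℤ := if j = 1 ∨ j = 2 ∨ j = -3 then 1 else if j = 0 then 0 else -1

/-- The `j`-th site. -/
def site (K j : ℤ) : DLV := (lamps K j, pos j)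

theorem mem_lamps (K j e : ℤ) : e ∈ lamps K j ↔ (0 < j ∧ e = K + j) ∨ (j < 0 ∧ e = -K + j - 1) ∨
    (j = 2 ∧ e = 0) ∨ (j = -2 ∧ e = -1) := by
  unfold lamps
  rw [Finset.mem_union]
  split_ifs <;> simp only [Finset.mem_singleton, Finset.notMem_empty, or_false, false_or,
    false_iff] <;> omega

theorem site_zero (K : ℤ) : site K 0 = (∅, 0) := by
  apply Prod.ext
  · change lamps K 0 = ∅
    ext e
    rw [mem_lamps]
    simp
  · rfl

theorem site_refl (K j : ℤ) (hj : -3 ≤ j ∧ j ≤ 3) : dlRefl (site K j) = site K (-j) := by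
  apply Prod.ext
  · ext e
    rw [mem_dlRefl]
    change -e - 1 ∈ lamps K j ↔ e ∈ lamps K (-j)
    rw [mem_lamps, mem_lamps]
    omega
  · rw [dlRefl_snd]
    change - pos j = pos (-j)
    unfold pos
    split_ifs <;> omega

theorem site_dist {K i j : ℤ} (hK : 0 ≤ K) (hi : -3 ≤ i ∧ i ≤ 3) (hj : -3 ≤ j ∧ j ≤ 3)
    (hij : i ≠ j) (hj0 : j ≠ 0) : K < dl.dist (site K i) (site K j) := by
  obtain ⟨l, r, h1, h2⟩ := dl_dist (site K i) (site K j)
  have h3 := h1.nonneg
  obtain ⟨h4, h5, h6, h7, h8⟩ := h1
  have hp1 : pos i ≤ 1 ∧ -1 ≤ pos i := by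
    unfold pos
    split_ifs <;> omega
  have h4' : l ≤ pos i := h4
  have h6' : pos i ≤ r := h6
  rcases lt_or_gt_of_ne hj0 with h | h
  · have h9 := h8 (-K + j - 1) (by
      change ¬ (-K + j - 1 ∈ lamps K i ↔ -K + j - 1 ∈ lamps K j)
      rw [mem_lamps, mem_lamps]
      omega)
    omega
  · have h9 := h8 (K + j) (by
      change ¬ (K + j ∈ lamps K i ↔ K + j ∈ lamps K j)
      rw [mem_lamps, mem_lamps]
      omega)
    omega

theorem far_right {K : ℤ} (hK : 0 ≤ K) {u : DLV} {l r : ℤ} (hv : Valid u (∅, 0) l r)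
    (hd : (dl.dist u (∅, 0) : ℤ) = 2 * (r - l) - |u.2|) (hr : K + 4 ≤ r) :
    ∃ j, 1 ≤ j ∧ j ≤ 3 ∧ dl.dist u (site K j) < dl.dist u (∅, 0) := by
  obtain ⟨h1, h2, h3, h4, h5⟩ := hv
  simp only [Finset.notMem_empty, iff_false, not_not] at h2 h4 h5
  -- the choice between the first two sites
  obtain ⟨j, hj1, hj2, hj3⟩ : ∃ j : ℤ, 1 ≤ j ∧ j ≤ 2 ∧ (0 ∈ u.1 ↔ (0 : ℤ) ∈ lamps K j) := by
    by_cases h0 : (0 : ℤ) ∈ u.1
    · exact ⟨2, by omega, by omega, by simp [h0, mem_lamps]⟩
    · refine ⟨1, by omega, by omega, ?_⟩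
      rw [mem_lamps]
      simp only [h0, false_iff]
      omega
  have hpj : pos j = 1 := by
    unfold pos
    split_ifs <;> omega
  rcases le_or_gt u.2 0 with ht | ht
  · refine ⟨j, hj1, by omega, ?_⟩
    have hval : Valid u (site K j) l r := by
      refine ⟨h1, ?_, h3, ?_, ?_⟩
      · change l ≤ pos j
        omega
      · change pos j ≤ r
        omega
      · intro e he
        change ¬ (e ∈ u.1 ↔ e ∈ lamps K j) at he
        by_cases hu : e ∈ u.1
        · exact h5 e hu
        · have hl : e ∈ lamps K j := by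
            by_contra hcon
            exact he (iff_of_false hu hcon)
          rw [mem_lamps] at hl
          omega
    have h6 := dl_dist_le hval
    have h7 : (site K j).2 = 1 := hpj
    rw [h7, abs_of_nonpos (by omega)] at h6
    rw [abs_of_nonpos ht] at hd
    omega
  · rcases lt_or_ge l 0 with hl | hl
    · refine ⟨3, by omega, by omega, ?_⟩
      have hp3 : (site K 3).2 = -1 := rfl
      have hval : Valid u (site K 3) l r := by
        refine ⟨h1, ?_, h3, ?_, ?_⟩
        · rw [hp3]
          omega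
        · rw [hp3]
          omega
        · intro e he
          change ¬ (e ∈ u.1 ↔ e ∈ lamps K 3) at he
          by_cases hu : e ∈ u.1
          · exact h5 e hu
          · have hl : e ∈ lamps K 3 := by
              by_contra hcon
              exact he (iff_of_false hu hcon)
            rw [mem_lamps] at hl
            omega
      have h6 := dl_dist_le hval
      rw [hp3, abs_of_nonneg (by omega)] at h6
      rw [abs_of_nonneg ht.le] at hd
      omega
    · have hl0 : l = 0 := by omega
      subst hl0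
      refine ⟨j, hj1, by omega, ?_⟩
      have hval : Valid u (site K j) 1 r := by
        refine ⟨by omega, ?_, h3, ?_, ?_⟩
        · change 1 ≤ pos j
          omega
        · change pos j ≤ r
          omega
        · intro e he
          change ¬ (e ∈ u.1 ↔ e ∈ lamps K j) at he
          have he0 : e ≠ 0 := by
            rintro rfl
            exact he hj3
          by_cases hu : e ∈ u.1
          · have := h5 e hu
            omega
          · have hl : e ∈ lamps K j := by
              by_contra hcon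
              exact he (iff_of_false hu hcon)
            rw [mem_lamps] at hl
            omega
      have h6 := dl_dist_le hval
      have h7 : (site K j).2 = 1 := hpj
      rw [h7, abs_of_nonneg (by omega)] at h6
      rw [abs_of_nonneg ht.le] at hd
      omega

theorem far {K : ℤ} (hK : 0 ≤ K) {u : DLV} (hu : 4 * (K + 4) < dl.dist u (∅, 0)) :
    ∃ j, -3 ≤ j ∧ j ≤ 3 ∧ dl.dist u (site K j) < dl.dist u (∅, 0) := by
  obtain ⟨l, r, h1, h2⟩ := dl_dist u (∅, 0)
  simp only [sub_zero] at h2
  have h3 := abs_nonneg u.2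
  by_cases hr : K + 4 ≤ r
  · obtain ⟨j, h4, h5, h6⟩ := far_right hK h1 h2 hr
    exact ⟨j, by omega, h5, h6⟩
  · have hl : K + 4 ≤ -l := by omega
    have hz : dlRefl (∅, 0) = (∅, 0) := by
      have := site_refl K 0 (by omega)
      rwa [neg_zero, site_zero] at this
    have hdd : dl.dist (dlRefl u) (∅, 0) = dl.dist u (∅, 0) := by
      conv_lhs => rw [← hz]
      exact dist_map dl_connected _ _ _
    have hv : Valid (dlRefl u) (∅, 0) (-r) (-l) := by
      obtain ⟨h4, h5, h6, h7, h8⟩ := h1
      simp only [Finset.notMem_empty, iff_false, not_not] at h5 h7 h8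
      refine ⟨?_, by simp only; omega, ?_, by simp only; omega, ?_⟩
      · rw [dlRefl_snd]
        omega
      · rw [dlRefl_snd]
        omega
      · intro e he
        simp only [Finset.notMem_empty, iff_false, not_not, mem_dlRefl] at he
        have := h8 _ he
        omega
    obtain ⟨j, h4, h5, h6⟩ := far_right hK hv (by
      rw [hdd, h2, dlRefl_snd, abs_neg]
      ring) hl
    refine ⟨-j, by omega, by omega, ?_⟩
    rw [hdd] at h6
    rw [← site_refl K j (by omega), ← dlRefl_dlRefl u, dist_map dl_connected, dlRefl_dlRefl]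
    exact h6

theorem dl_survival : survival dl ≤ 6 := by
  classical
  have h := survival_le dl_connected dl_locFinite 6 (fun D => ?_)
  · exact_mod_cast h
  have hK : (0 : ℤ) ≤ (D : ℤ) := Int.natCast_nonneg D
  refine ⟨(Finset.Icc (-3 : ℤ) 3).image (site D), (∅, 0), ?_, ?_, ?_, ?_⟩
  · refine Finset.card_image_le.trans ?_
    rw [Int.card_Icc]
    norm_num
  · rw [← site_zero D]
    apply Finset.mem_image_of_mem
    rw [Finset.mem_Icc]
    omega
  · intro v₁ h₁ v₂ h₂ hne
    obtain ⟨i, hi, rfl⟩ := Finset.mem_image.1 h₁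
    obtain ⟨j, hj, rfl⟩ := Finset.mem_image.1 h₂
    rw [Finset.mem_Icc] at hi hj
    have hij : i ≠ j := by
      rintro rfl
      exact hne rfl
    by_cases hj0 : j = 0
    · have h1 := site_dist hK hj hi hij.symm (by omega)
      rw [SimpleGraph.dist_comm]
      exact_mod_cast h1
    · have h1 := site_dist hK hi hj hij hj0
      exact_mod_cast h1
  · apply (ball_finite dl_connected dl_locFinite (∅, 0) (4 * (D + 4))).subset
    intro u hu
    by_contra hcon
    have hcon' : 4 * (D + 4) < dl.dist u (∅, 0) := not_le.1 hcon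
    obtain ⟨j, h1, h2, h3⟩ := far (u := u) hK (by exact_mod_cast hcon')
    have h4 := hu (site D j) (Finset.mem_image_of_mem _ (Finset.mem_Icc.2 ⟨h1, h2⟩))
    omega

end Q124.Surv
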