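import Mathlib

/-!
# The survival number of a vertex-transitive graph: definitions
-/

namespace Q124.Surv

variable {V : Type*} (G : SimpleGraph V)

/-- `G` is vertex-transitive. -/
def VertexTransitive : Prop := ∀ u v : V, ∃ φ : G ≃g G, φ u = v

/-- `G` is locally finite. -/
def LocFinite : Prop := ∀ v : V, (G.neighborSet v).Finite

/-- The Voronoi cell of `v`. -/
def cell (T : Finset V) (v : V) : Set V := {u | ∀ v' ∈ T, G.dist u v ≤ G.dist u v'}

/-- The family of the finite sets of at least `n` sites with pairwise distances greater than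
`D`. -/
def Sites (D n : ℕ) (T : Finset V) : Prop :=
  n ≤ T.card ∧ ∀ v₁ ∈ T, ∀ v₂ ∈ T, v₁ ≠ v₂ → D < G.dist v₁ v₂

/-- The number of sites with infinite cells. -/
noncomputable def numInfinite (T : Finset V) : ℕ := {v | v ∈ T ∧ (cell G T v).Infinite}.ncard

/-- The survival number, an element of `ℕ ∪ {∞}`. -/
noncomputable def survival : ℕ∞ :=
  sSup {n : ℕ∞ | ∃ m : ℕ, 1 ≤ m ∧ n = m ∧ ∃ D : ℕ, ∀ T, Sites G D m T → m ≤ numInfinite G T}

end Q124.Surv
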