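import Pool.Agent.Q124.Surv.Basic

/-!
# The strong product of a graph with the two-way infinite path

The survival number of the strong product with `ℤ` is at most twice the degree.
-/

namespace Q124.Surv

open SimpleGraph

variable {V : Type*} {G : SimpleGraph V}

/-- The strong product of `G` with the two-way infinite path: two distinct pairs are adjacent if
the first entries are equal or adjacent and the second entries differ by at most `1`. -/
def strongZ (G : SimpleGraph V) : SimpleGraph (V × ℤ) where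
  Adj p q := p ≠ q ∧ (p.1 = q.1 ∨ G.Adj p.1 q.1) ∧ |p.2 - q.2| ≤ 1
  symm := ⟨fun _ _ h => ⟨h.1.symm, h.2.1.imp Eq.symm (fun h' => h'.symm), by
    rw [abs_sub_comm]; exact h.2.2⟩⟩
  loopless := ⟨fun _ h => h.1 rfl⟩

theorem strong_walk (hc : G.Connected) (n : ℕ) : ∀ p q : V × ℤ, G.dist p.1 q.1 ≤ n →
    |p.2 - q.2| ≤ n → ∃ w : (strongZ G).Walk p q, w.length ≤ n := by
  induction n with
  | zero =>
    intro p q h1 h2
    have h3 : p.1 = q.1 := hc.dist_eq_zero_iff.1 (Nat.le_zero.1 h1)
    have h4 : p.2 = q.2 := by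
      rw [Nat.cast_zero] at h2
      have := abs_nonpos_iff.1 h2
      omega
    obtain rfl : p = q := Prod.ext h3 h4
    exact ⟨Walk.nil, le_rfl⟩
  | succ n ih =>
    intro p q h1 h2
    obtain ⟨x, hx1, hx2⟩ : ∃ x, (p.1 = x ∨ G.Adj p.1 x) ∧ G.dist x q.1 ≤ n := by
      rcases Nat.lt_or_ge n (G.dist p.1 q.1) with h | h
      · obtain ⟨w, hw1, hw2⟩ := exists_adj_dist hc (by omega : G.dist p.1 q.1 = n + 1)
        exact ⟨w, Or.inr hw1, hw2.le⟩
      · exact ⟨p.1, Or.inl rfl, h⟩
    obtain ⟨z, hz1, hz2⟩ : ∃ z : ℤ, |p.2 - z| ≤ 1 ∧ |z - q.2| ≤ n := by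
      push_cast at h2
      rw [abs_le] at h2
      rcases lt_trichotomy p.2 q.2 with h | h | h
      · refine ⟨p.2 + 1, ?_, ?_⟩
        · rw [abs_le]
          constructor <;> omega
        · rw [abs_le]
          constructor <;> omega
      · refine ⟨p.2, ?_, ?_⟩
        · rw [sub_self, abs_zero]
          omega
        · rw [h, sub_self, abs_zero]
          omega
      · refine ⟨p.2 - 1, ?_, ?_⟩
        · rw [abs_le]
          constructor <;> omega
        · rw [abs_le]
          constructor <;> omega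
    obtain ⟨w, hw⟩ := ih (x, z) q hx2 hz2
    by_cases hp : p = (x, z)
    · subst hp
      exact ⟨w, by omega⟩
    · exact ⟨Walk.cons ⟨hp, hx1, hz1⟩ w, by rw [Walk.length_cons]; omega⟩

theorem strong_walk_ge (hc : G.Connected) {p q : V × ℤ} (w : (strongZ G).Walk p q) :
    G.dist p.1 q.1 ≤ w.length ∧ |p.2 - q.2| ≤ w.length := by
  induction w with
  | nil => simp
  | @cons p r q h w ih =>
    rw [Walk.length_cons]
    constructor
    · have h1 := hc.dist_triangle (u := p.1) (v := r.1) (w := q.1)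
      have h2 : G.dist p.1 r.1 ≤ 1 := by
        rcases h.2.1 with h3 | h3
        · rw [h3, dist_self]
          omega
        · rw [dist_eq_one_iff_adj.2 h3]
      omega
    · have h1 := abs_sub_le p.2 r.2 q.2
      have h2 := h.2.2
      push_cast
      linarith [ih.2]

theorem strong_connected (hc : G.Connected) : (strongZ G).Connected := by
  obtain ⟨v⟩ := hc.nonempty
  have : Nonempty (V × ℤ) := ⟨(v, 0)⟩
  refine Connected.mk fun p q => ?_
  obtain ⟨w, -⟩ := strong_walk hc (max (G.dist p.1 q.1) |p.2 - q.2|.toNat) p q (le_max_left _ _) (by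
    have h1 : |p.2 - q.2| = (|p.2 - q.2|.toNat : ℤ) := (Int.toNat_of_nonneg (abs_nonneg _)).symm
    conv_lhs => rw [h1]
    exact_mod_cast le_max_right _ _)
  exact ⟨w⟩

theorem strong_dist_le (hc : G.Connected) {n : ℕ} {p q : V × ℤ} (h1 : G.dist p.1 q.1 ≤ n)
    (h2 : |p.2 - q.2| ≤ n) : (strongZ G).dist p q ≤ n := by
  obtain ⟨w, hw⟩ := strong_walk hc n p q h1 h2
  exact (dist_le w).trans hw

theorem le_strong_dist (hc : G.Connected) (p q : V × ℤ) :
    G.dist p.1 q.1 ≤ (strongZ G).dist p q ∧ |p.2 - q.2| ≤ (strongZ G).dist p q := by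
  obtain ⟨w, hw⟩ := (strong_connected hc).exists_walk_length_eq_dist p q
  rw [← hw]
  exact strong_walk_ge hc w

theorem strong_locFinite (hf : LocFinite G) : LocFinite (strongZ G) := by
  intro p
  apply (((Set.finite_singleton p.1).union (hf p.1)).prod
    (Set.finite_Icc (p.2 - 1) (p.2 + 1))).subset
  rintro q ⟨-, h1, h2⟩
  rw [abs_le] at h2
  refine ⟨?_, ?_, ?_⟩
  · rcases h1 with h1 | h1
    · exact Or.inl h1.symm
    · exact Or.inr h1
  · omega
  · omega

theorem strong_transitive (ht : VertexTransitive G) : VertexTransitive (strongZ G) := by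
  intro p q
  obtain ⟨φ, hφ⟩ := ht p.1 q.1
  let e : V × ℤ ≃ V × ℤ := φ.toEquiv.prodCongr (Equiv.addRight (q.2 - p.2))
  refine ⟨⟨e, ?_⟩, ?_⟩
  · intro a b
    change ((φ a.1, a.2 + (q.2 - p.2)) ≠ (φ b.1, b.2 + (q.2 - p.2)) ∧
      (φ a.1 = φ b.1 ∨ G.Adj (φ a.1) (φ b.1)) ∧
      |a.2 + (q.2 - p.2) - (b.2 + (q.2 - p.2))| ≤ 1) ↔ a ≠ b ∧ _ ∧ _
    rw [φ.injective.eq_iff, φ.map_adj_iff, add_sub_add_right_eq_sub]
    apply and_congr_left'
    rw [not_iff_not, Prod.ext_iff, Prod.ext_iff, φ.injective.eq_iff, add_left_inj]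
  · change (φ p.1, p.2 + (q.2 - p.2)) = q
    rw [hφ, add_sub_cancel]

/-- **The survival number of the strong product with `ℤ` is finite.** -/
theorem strong_survival [Infinite V] (hc : G.Connected) (hf : LocFinite G) (o : V) :
    survival (strongZ G) ≤ ((2 * (hf o).toFinset.card : ℕ) : ℕ∞) := by
  classical
  have hc' := strong_connected hc
  apply survival_le hc' (strong_locFinite hf)
  intro D
  set N := (hf o).toFinset with hN
  set k := N.card with hk
  -- `o` has a neighbour
  have hdeg : ∃ x, G.Adj o x := by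
    obtain ⟨y, hy⟩ := exists_ne o
    obtain ⟨p⟩ := hc.preconnected o y
    cases p with
    | nil => exact absurd rfl hy
    | cons h _ => exact ⟨_, h⟩
  let nb : ℕ → V := fun j => if h : j - 1 < k then (N.equivFin.symm ⟨j - 1, h⟩).1 else o
  have hnb : ∀ x, G.Adj o x → ∃ j, 1 ≤ j ∧ j ≤ k ∧ nb j = x := by
    intro x hx
    have hxN : x ∈ N := (hf o).mem_toFinset.2 hx
    refine ⟨(N.equivFin ⟨x, hxN⟩).1 + 1, by omega, (N.equivFin ⟨x, hxN⟩).2, ?_⟩
    have h1 : (N.equivFin ⟨x, hxN⟩).1 + 1 - 1 < k := by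
      rw [Nat.add_sub_cancel]
      exact (N.equivFin ⟨x, hxN⟩).2
    simp only [nb]
    rw [dif_pos h1]
    simp only [Nat.add_sub_cancel, Fin.eta, Equiv.symm_apply_apply]
  have hk1 : 1 ≤ k := by
    obtain ⟨x, hx⟩ := hdeg
    obtain ⟨j, h1, h2, -⟩ := hnb x hx
    omega
  let M : ℤ := D + 1
  let site : ℤ → V × ℤ := fun c => (if c = 0 then o else nb c.natAbs, c * M)
  let T : Finset (V × ℤ) := (Finset.Icc (-(k : ℤ)) k).image site
  have hw : site 0 = (o, 0) := by simp [site]
  have hwT : (o, (0 : ℤ)) ∈ T := by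
    rw [← hw]
    apply Finset.mem_image_of_mem
    rw [Finset.mem_Icc]
    constructor <;> omega
  refine ⟨T, (o, 0), ?_, hwT, ?_, ?_⟩
  · refine Finset.card_image_le.trans ?_
    rw [Int.card_Icc]
    omega
  · intro v₁ h₁ v₂ h₂ hne
    obtain ⟨c₁, -, rfl⟩ := Finset.mem_image.1 h₁
    obtain ⟨c₂, -, rfl⟩ := Finset.mem_image.1 h₂
    have hcc : c₁ ≠ c₂ := fun h => hne (by rw [h])
    have h3 := (le_strong_dist hc (site c₁) (site c₂)).2
    have h4 : (site c₁).2 - (site c₂).2 = (c₁ - c₂) * M := by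
      simp only [site]
      ring
    rw [h4, abs_mul] at h3
    have h5 : 1 ≤ |c₁ - c₂| := Int.one_le_abs (sub_ne_zero.2 hcc)
    have h6 : |M| = D + 1 := abs_of_nonneg (by simp only [M]; omega)
    rw [h6] at h3
    have h7 : (1 : ℤ) * (D + 1) ≤ |c₁ - c₂| * (D + 1) :=
      mul_le_mul_of_nonneg_right h5 (by omega)
    omega
  · apply (ball_finite hc' (strong_locFinite hf) (o, 0) (k * (D + 1))).subset
    intro u hu
    by_contra hcon
    have hm : k * (D + 1) < (strongZ G).dist u (o, 0) := not_le.1 hcon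
    set m := (strongZ G).dist u (o, 0) with hmdef
    obtain ⟨hm1, hm2⟩ := le_strong_dist hc u (o, 0)
    rw [← hmdef] at hm1 hm2
    have hkD : 1 ≤ k * (D + 1) := Nat.mul_pos hk1 (by omega)
    -- a neighbour of `o` in the direction of `u`
    obtain ⟨x, hx1, hx2⟩ : ∃ x, G.Adj o x ∧ G.dist u.1 x ≤ m - 1 := by
      by_cases huo : u.1 = o
      · obtain ⟨x, hx⟩ := hdeg
        refine ⟨x, hx, ?_⟩
        rw [huo, dist_eq_one_iff_adj.2 hx]
        omega
      · have hpos := hc.pos_dist_of_ne huo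
        obtain ⟨x, hx1, hx2⟩ := exists_adj_dist hc (u := o) (v := u.1)
          (n := G.dist u.1 o - 1) (by rw [SimpleGraph.dist_comm]; omega)
        refine ⟨x, hx1, ?_⟩
        rw [SimpleGraph.dist_comm, hx2]
        exact Nat.sub_le_sub_right hm1 1
    obtain ⟨j, hj1, hj2, rfl⟩ := hnb x hx1
    have hjM : (j : ℤ) * M ≤ (m : ℤ) - 1 := by
      have h1 : j * (D + 1) ≤ k * (D + 1) := Nat.mul_le_mul_right _ hj2
      simp only [M]
      zify at h1 hm
      linarith
    have hjM1 : 1 ≤ (j : ℤ) * M := by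
      have h1 : 1 * 1 ≤ j * (D + 1) := Nat.mul_le_mul hj1 (by omega)
      simp only [M]
      zify at h1
      linarith
    rw [abs_le] at hm2
    simp only [sub_zero] at hm2
    obtain ⟨c, hc1, hc2, hc3⟩ : ∃ c : ℤ, c.natAbs = j ∧ c ≠ 0 ∧ |u.2 - c * M| ≤ (m : ℤ) - 1 := by
      rcases le_total 0 u.2 with h | h
      · refine ⟨j, by simp, by omega, ?_⟩
        rw [abs_le]
        constructor <;> linarith [hm2.2]
      · refine ⟨-j, by simp, by omega, ?_⟩
        rw [abs_le]
        constructor <;> nlinarith [hm2.1]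
    have hcT : site c ∈ T := by
      apply Finset.mem_image_of_mem
      rw [Finset.mem_Icc]
      omega
    have h1 := hu _ hcT
    rw [← hmdef] at h1
    have h2 : (strongZ G).dist u (site c) ≤ m - 1 := by
      apply strong_dist_le hc
      · simp only [site]
        rw [if_neg hc2, hc1]
        exact hx2
      · have e : (((m - 1 : ℕ)) : ℤ) = (m : ℤ) - 1 := by omega
        rw [e]
        exact hc3
    omega

end Q124.Surv
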