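import Pool.Agent.Q124.Surv.Basic

/-!
# A vertex-transitive graph of quadratic growth with survival number two

The vertices are the points of `ℤ × ℤ` in two layers.  In the layer `false` a point is adjacent to
the points of the other side of at most `2` columns and at most `1` row away, in the layer `true` to
those at most `1` column and at most `2` rows away; the two copies of a point are adjacent.
-/

namespace Q124.Surv

open SimpleGraph

section General

variable {V : Type*} {G : SimpleGraph V}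

/-- The survival number of an infinite vertex-transitive graph is at least `2`. -/
theorem two_le_survival [Infinite V] (hc : G.Connected) (hf : LocFinite G)
    (ht : VertexTransitive G) : 2 ≤ survival G := by
  apply le_sSup
  refine ⟨2, by norm_num, by norm_num, 0, fun T hT => ?_⟩
  by_contra hI
  push Not at hI
  obtain ⟨o⟩ : Nonempty V := inferInstance
  obtain ⟨A, hA, hA2, K, hK, hdom⟩ := exists_dominated hc ht hT hI o
  obtain ⟨u0, hu0⟩ := hK.exists_notMem
  obtain ⟨a, ha, -⟩ := hdom u0 hu0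
  have hA1 : ∀ b ∈ A, b = a := by
    intro b hb
    exact Finset.card_le_one.1 (by omega) b hb a ha
  have hdom' : ∀ u ∉ K, G.dist u a < G.dist u o := by
    intro u hu
    obtain ⟨b, hb, h⟩ := hdom u hu
    rwa [hA1 b hb] at h
  obtain ⟨φ, hφ⟩ := ht o a
  -- balls around `o`
  let B : ℕ → Set V := fun r => {u | G.dist u o ≤ r}
  have hBfin : ∀ r, (B r).Finite := fun r => ball_finite hc hf o r
  have hBmono : ∀ r, B r ⊆ B (r + 1) := fun r u hu => Nat.le_succ_of_le hu
  obtain ⟨r1, hr1⟩ : ∃ r1, ∀ u ∈ K, G.dist u a ≤ r1 := by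
    obtain ⟨r1, hr1⟩ := (hK.image fun u => G.dist u a).bddAbove
    exact ⟨r1, fun u hu => hr1 ⟨u, hu, rfl⟩⟩
  have hstep : ∀ r, r1 ≤ r → B (r + 1) = B r := by
    intro r hr
    have hsub : φ.symm '' (B (r + 1)) ⊆ B r := by
      rintro _ ⟨u, hu, rfl⟩
      have h1 : G.dist (φ.symm u) o = G.dist u a := by
        rw [← hφ, ← dist_map hc φ (φ.symm u) o, RelIso.apply_symm_apply]
      change G.dist (φ.symm u) o ≤ r
      rw [h1]
      by_cases huK : u ∈ K
      · exact (hr1 u huK).trans hr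
      · have h2 := hdom' u huK
        have h3 : G.dist u o ≤ r + 1 := hu
        omega
    have hcard : (B (r + 1)).ncard ≤ (B r).ncard := by
      rw [← Set.ncard_image_of_injective (B (r + 1)) φ.symm.injective]
      exact Set.ncard_le_ncard hsub (hBfin r)
    exact (Set.eq_of_subset_of_ncard_le (hBmono r) hcard (hBfin (r + 1))).symm
  have hall : ∀ k, B (r1 + k) = B r1 := by
    intro k
    induction k with
    | zero => rfl
    | succ k ih => rw [← Nat.add_assoc, hstep (r1 + k) (by omega), ih]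
  have huniv : B r1 = Set.univ := by
    refine Set.eq_univ_of_forall fun x => ?_
    rw [← hall (G.dist x o)]
    change G.dist x o ≤ r1 + G.dist x o
    omega
  have := hBfin r1
  rw [huniv] at this
  exact Set.infinite_univ this

end General

/-- Vertices: points of `ℤ × ℤ` in two layers. -/
abbrev PV : Type := (ℤ × ℤ) × Bool

/-- The width of a step in the layer `b`. -/
def rx (b : Bool) : ℕ := if b then 1 else 2

/-- The height of a step in the layer `b`. -/
def ry (b : Bool) : ℕ := if b then 2 else 1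

/-- The graph. -/
def lay : SimpleGraph PV where
  Adj p q := p ≠ q ∧
    ((p.2 = q.2 ∧ |q.1.1 - p.1.1| ≤ rx p.2 ∧ |q.1.2 - p.1.2| ≤ ry p.2) ∨
      (p.2 ≠ q.2 ∧ p.1 = q.1))
  symm := ⟨fun p q h => by
    obtain ⟨h0, h⟩ := h
    refine ⟨h0.symm, ?_⟩
    rcases h with ⟨h1, h2, h3⟩ | ⟨h1, h2⟩
    · left
      rw [← h1, abs_sub_comm, abs_sub_comm (p.1.2)]
      exact ⟨rfl, h2, h3⟩
    · exact Or.inr ⟨fun h => h1 h.symm, h2.symm⟩⟩
  loopless := ⟨fun p h => h.1 rfl⟩

theorem exists_between {z : ℤ} {n k : ℕ} (h : |z| ≤ (n + k : ℕ)) :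
    ∃ z' : ℤ, |z'| ≤ k ∧ |z - z'| ≤ n := by
  refine ⟨max (-k) (min k z), ?_, ?_⟩
  · rw [abs_le]; omega
  · rw [abs_le] at h ⊢; push_cast at h; omega

/-- Straight walks in one layer. -/
theorem straight (b : Bool) (n : ℕ) : ∀ p q : ℤ × ℤ, |q.1 - p.1| ≤ (n * rx b : ℕ) →
    |q.2 - p.2| ≤ (n * ry b : ℕ) → ∃ w : lay.Walk (p, b) (q, b), w.length ≤ n := by
  induction n with
  | zero =>
    intro p q h1 h2
    have e : p = q := by
      simp only [Nat.zero_mul, Nat.cast_zero, abs_nonpos_iff] at h1 h2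
      exact Prod.ext (by omega) (by omega)
    subst e
    exact ⟨Walk.nil, le_rfl⟩
  | succ n ih =>
    intro p q h1 h2
    rw [Nat.succ_mul] at h1 h2
    obtain ⟨z1, hz1, hz1'⟩ := exists_between h1
    obtain ⟨z2, hz2, hz2'⟩ := exists_between h2
    by_cases hpe : p = (p.1 + z1, p.2 + z2)
    · have e1 : z1 = 0 := by have := congrArg Prod.fst hpe; simp only at this; omega
      have e2 : z2 = 0 := by have := congrArg Prod.snd hpe; simp only at this; omega
      subst e1 e2
      rw [sub_zero] at hz1' hz2'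
      obtain ⟨w, hw⟩ := ih p q hz1' hz2'
      exact ⟨w, Nat.le_succ_of_le hw⟩
    · obtain ⟨w, hw⟩ := ih (p.1 + z1, p.2 + z2) q
        (by rw [show q.1 - (p.1 + z1) = q.1 - p.1 - z1 by ring]; exact hz1')
        (by rw [show q.2 - (p.2 + z2) = q.2 - p.2 - z2 by ring]; exact hz2')
      have hadj : lay.Adj (p, b) ((p.1 + z1, p.2 + z2), b) := by
        refine ⟨fun h => hpe (congrArg Prod.fst h), Or.inl ⟨rfl, ?_, ?_⟩⟩
        · simpa using hz1
        · simpa using hz2
      exact ⟨Walk.cons hadj w, Nat.succ_le_succ hw⟩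

theorem adj_switch (z : ℤ × ℤ) (b : Bool) : lay.Adj (z, b) (z, !b) := by
  refine ⟨fun h => ?_, Or.inr ⟨?_, rfl⟩⟩
  · have := congrArg Prod.snd h
    cases b <;> simp at this
  · cases b <;> simp

/-- Walks from the layer `true` to the layer `false`. -/
theorem cross (a c : ℕ) (p q : ℤ × ℤ) (h1 : |q.1 - p.1| ≤ (2 * a + c : ℕ))
    (h2 : |q.2 - p.2| ≤ (a + 2 * c : ℕ)) :
    ∃ w : lay.Walk (p, true) (q, false), w.length ≤ a + c + 1 := by
  obtain ⟨z1, hz1, hz1'⟩ := exists_between (n := 2 * a) (k := c) h1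
  obtain ⟨z2, hz2, hz2'⟩ := exists_between (n := a) (k := 2 * c) h2
  obtain ⟨w1, hw1⟩ := straight true c p (p.1 + z1, p.2 + z2)
    (by simpa [rx] using hz1) (by rw [ry]; simpa [Nat.mul_comm] using hz2)
  obtain ⟨w2, hw2⟩ := straight false a (p.1 + z1, p.2 + z2) q
    (by rw [show q.1 - (p.1 + z1) = q.1 - p.1 - z1 by ring, rx]
        simpa [Nat.mul_comm] using hz1')
    (by rw [show q.2 - (p.2 + z2) = q.2 - p.2 - z2 by ring, ry]
        simpa using hz2')
  refine ⟨w1.append (Walk.cons (adj_switch _ true) w2), ?_⟩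
  rw [Walk.length_append, Walk.length_cons]
  omega

/-- Walks from the layer `true` to the layer `true` through the layer `false`. -/
theorem cross_back (a c : ℕ) (p q : ℤ × ℤ) (h1 : |q.1 - p.1| ≤ (2 * a + c : ℕ))
    (h2 : |q.2 - p.2| ≤ (a + 2 * c : ℕ)) :
    ∃ w : lay.Walk (p, true) (q, true), w.length ≤ a + c + 2 := by
  obtain ⟨w, hw⟩ := cross a c p q h1 h2
  refine ⟨w.append (Walk.cons (adj_switch q false) Walk.nil), ?_⟩
  rw [Walk.length_append, Walk.length_cons, Walk.length_nil]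
  omega

theorem lay_connected : lay.Connected := by
  have key : ∀ p q : ℤ × ℤ, ∀ b : Bool, lay.Reachable (p, b) (q, b) := by
    intro p q b
    obtain ⟨w, -⟩ := straight b ((q.1 - p.1).natAbs + (q.2 - p.2).natAbs) p q
      (by
        rw [abs_le]
        cases b
        · change -(((((q.1 - p.1).natAbs + (q.2 - p.2).natAbs) * 2 : ℕ)) : ℤ) ≤ _ ∧
            _ ≤ (((((q.1 - p.1).natAbs + (q.2 - p.2).natAbs) * 2 : ℕ)) : ℤ)
          omega
        · change -(((((q.1 - p.1).natAbs + (q.2 - p.2).natAbs) * 1 : ℕ)) : ℤ) ≤ _ ∧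
            _ ≤ (((((q.1 - p.1).natAbs + (q.2 - p.2).natAbs) * 1 : ℕ)) : ℤ)
          omega)
      (by
        rw [abs_le]
        cases b
        · change -(((((q.1 - p.1).natAbs + (q.2 - p.2).natAbs) * 1 : ℕ)) : ℤ) ≤ _ ∧
            _ ≤ (((((q.1 - p.1).natAbs + (q.2 - p.2).natAbs) * 1 : ℕ)) : ℤ)
          omega
        · change -(((((q.1 - p.1).natAbs + (q.2 - p.2).natAbs) * 2 : ℕ)) : ℤ) ≤ _ ∧
            _ ≤ (((((q.1 - p.1).natAbs + (q.2 - p.2).natAbs) * 2 : ℕ)) : ℤ)
          omega)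
    exact ⟨w⟩
  refine Connected.mk fun p q => ?_
  obtain ⟨p, b⟩ := p
  obtain ⟨q, c⟩ := q
  by_cases h : b = c
  · subst h
    exact key p q b
  · have : c = !b := by cases b <;> cases c <;> simp_all
    subst this
    exact (key p q b).trans (adj_switch q b).reachable

theorem lay_locFinite : LocFinite lay := by
  rintro ⟨p, b⟩
  refine Set.Finite.subset (s := (Set.Icc (p.1 - 2) (p.1 + 2) ×ˢ Set.Icc (p.2 - 2) (p.2 + 2)) ×ˢ
    (Set.univ : Set Bool)) (((Set.finite_Icc _ _).prod (Set.finite_Icc _ _)).prod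
      Set.finite_univ) ?_
  rintro ⟨q, c⟩ ⟨-, ⟨-, h1, h2⟩ | ⟨-, h⟩⟩
  · have h3 : (rx b : ℤ) ≤ 2 := by cases b <;> simp [rx]
    have h4 : (ry b : ℤ) ≤ 2 := by cases b <;> simp [ry]
    simp only at h1 h2
    rw [abs_le] at h1 h2
    simp only [Set.mem_prod, Set.mem_Icc, Set.mem_univ, and_true]
    omega
  · simp only at h
    subst h
    simp only [Set.mem_prod, Set.mem_Icc, Set.mem_univ, and_true]
    omega

/-- Translations. -/
def layShift (s t : ℤ) : lay ≃g lay where
  toFun p := ((p.1.1 + s, p.1.2 + t), p.2)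
  invFun p := ((p.1.1 - s, p.1.2 - t), p.2)
  left_inv p := by simp
  right_inv p := by simp
  map_rel_iff' := by
    rintro ⟨⟨x, y⟩, b⟩ ⟨⟨x', y'⟩, b'⟩
    simp only [lay, Equiv.coe_fn_mk, ne_eq, Prod.mk.injEq, add_sub_add_right_eq_sub, add_left_inj]

/-- The exchange of the layers. -/
def layFlip : lay ≃g lay where
  toFun p := ((p.1.2, p.1.1), !p.2)
  invFun p := ((p.1.2, p.1.1), !p.2)
  left_inv p := by simp
  right_inv p := by simp
  map_rel_iff' := by
    rintro ⟨⟨x, y⟩, b⟩ ⟨⟨x', y'⟩, b'⟩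
    cases b <;> cases b' <;> simp [lay, rx, ry] <;> omega

theorem lay_transitive : VertexTransitive lay := by
  rintro ⟨⟨x, y⟩, b⟩ ⟨⟨x', y'⟩, b'⟩
  by_cases h : b = b'
  · subst h
    exact ⟨layShift (x' - x) (y' - y), by simp [layShift]⟩
  · refine ⟨layFlip.trans (layShift (x' - y) (y' - x)), ?_⟩
    have : b' = !b := by cases b <;> cases b' <;> simp_all
    subst this
    simp [layShift, layFlip]

/-- Lower bound: the numbers of steps in the two layers and of switches of a walk. -/
theorem steps {p q : PV} (w : lay.Walk p q) (hq : q.2 = false) :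
    ∃ a c s : ℕ, a + c + s = w.length ∧ |p.1.1 - q.1.1| ≤ (2 * a + c : ℕ) ∧
      |p.1.2 - q.1.2| ≤ (a + 2 * c : ℕ) ∧ (s = 0 → p.2 = false ∧ c = 0) ∧ (s = 1 → p.2 = true) := by
  induction w with
  | nil => exact ⟨0, 0, 0, rfl, by simp, by simp, fun _ => ⟨hq, rfl⟩, by simp⟩
  | @cons u v z h w ih =>
    obtain ⟨a, c, s, h1, h2, h3, h4, h5⟩ := ih hq
    obtain ⟨⟨ux, uy⟩, ub⟩ := u
    obtain ⟨⟨vx, vy⟩, vb⟩ := v
    obtain ⟨⟨qx, qy⟩, qb⟩ := z
    have hl : (Walk.cons h w).length = w.length + 1 := rfl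
    rw [hl]
    clear hl
    obtain ⟨-, ⟨e1, e2, e3⟩ | ⟨e1, e2⟩⟩ := h
    · simp only at e1 e2 e3 h2 h3 h4 h5 ⊢
      subst e1
      cases ub
      · refine ⟨a + 1, c, s, by omega, ?_, ?_, h4, h5⟩
        · rw [abs_le] at *; simp [rx] at *; omega
        · rw [abs_le] at *; simp [ry] at *; omega
      · refine ⟨a, c + 1, s, by omega, ?_, ?_, ?_, h5⟩
        · rw [abs_le] at *; simp [rx] at *; omega
        · rw [abs_le] at *; simp [ry] at *; omega
        · intro hs
          have := (h4 hs).1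
          simp at this
    · simp only [Prod.mk.injEq] at e1 e2 h2 h3 h4 h5 ⊢
      obtain ⟨rfl, rfl⟩ := e2
      refine ⟨a, c, s + 1, by omega, h2, h3, by omega, ?_⟩
      intro hs
      have := (h4 (by omega)).1
      subst this
      cases ub
      · exact absurd rfl e1
      · rfl

/-- Walks from a site `(o, true)` to a vertex far from the middle site. -/
theorem shorter {n m Y D a c s : ℕ} (hn : 16 ≤ n) (hD : D = m - n + (n - m))
    (hfar : ¬ (m ≤ n + 2 ∧ Y ≤ 2 * n + 4)) (h1 : m ≤ 2 * a + c) (h2 : Y ≤ a + 2 * c) (b : Bool)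
    (h3 : s = 0 → b = false ∧ c = 0) (h4 : s = 1 → b = true) (o q : ℤ × ℤ)
    (hx : |q.1 - o.1| = D) (hy : |q.2 - o.2| = Y) :
    ∃ w : lay.Walk (o, true) (q, b), w.length + 1 ≤ a + c + s := by
  by_cases hc : 2 * D ≤ Y
  · cases b
    · obtain ⟨w, hw⟩ := cross 0 ((Y + 1) / 2) o q (by rw [hx]; exact_mod_cast (by omega))
        (by rw [hy]; exact_mod_cast (by omega))
      refine ⟨w, ?_⟩
      have h5 : s ≠ 1 := fun h => by simpa using h4 h
      by_cases hs : s = 0
      · have := (h3 hs).2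
        omega
      · omega
    · have h5 : s ≠ 0 := fun h => by simpa using (h3 h).1
      obtain ⟨w, hw⟩ := straight true ((Y + 1) / 2) o q
        (by rw [hx]; simp only [rx, if_true]; exact_mod_cast (by omega))
        (by rw [hy]; simp only [ry, if_true]; exact_mod_cast (by omega))
      exact ⟨w, by omega⟩
  · obtain ⟨a', c', h5, h6, h7⟩ : ∃ a' c' : ℕ, D ≤ 2 * a' + c' ∧ Y ≤ a' + 2 * c' ∧
        a' + c' + 3 ≤ a + c := by
      by_cases hc2 : 2 * Y ≤ D
      · exact ⟨(D + 1) / 2, 0, by omega, by omega, by omega⟩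
      · exact ⟨(2 * D - Y + 2) / 3, (2 * Y - D + 2) / 3, by omega, by omega, by omega⟩
    cases b
    · obtain ⟨w, hw⟩ := cross a' c' o q (by rw [hx]; exact_mod_cast h5)
        (by rw [hy]; exact_mod_cast h6)
      exact ⟨w, by omega⟩
    · obtain ⟨w, hw⟩ := cross_back a' c' o q (by rw [hx]; exact_mod_cast h5)
        (by rw [hy]; exact_mod_cast h6)
      exact ⟨w, by omega⟩

/-- The middle site and the two outer sites. -/
def mid : PV := ((0, 0), false)

/-- The outer sites. -/
def outer (n : ℤ) : PV := ((n, 0), true)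

theorem dominated {n : ℕ} (hn : 16 ≤ n) (q : PV)
    (hfar : ¬ (q.1.1.natAbs ≤ n + 2 ∧ q.1.2.natAbs ≤ 2 * n + 4)) :
    lay.dist q (outer n) < lay.dist q mid ∨ lay.dist q (outer (-n)) < lay.dist q mid := by
  obtain ⟨w, hw⟩ := lay_connected.exists_walk_length_eq_dist q mid
  obtain ⟨a, c, s, h1, h2, h3, h4, h5⟩ := steps w rfl
  obtain ⟨⟨x, y⟩, b⟩ := q
  change ¬ (x.natAbs ≤ n + 2 ∧ y.natAbs ≤ 2 * n + 4) at hfar
  simp only [mid, sub_zero] at h2 h3
  have h2' : x.natAbs ≤ 2 * a + c := by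
    rw [abs_le] at h2; omega
  have h3' : y.natAbs ≤ a + 2 * c := by
    rw [abs_le] at h3; omega
  rcases le_total 0 x with hx | hx
  · left
    obtain ⟨w', hw'⟩ := shorter (D := (x - n).natAbs) hn (by omega) hfar h2' h3' b h4 h5
      ((n : ℤ), (0 : ℤ)) (x, y) (by simp) (by simp)
    rw [SimpleGraph.dist_comm, ← hw, ← h1]
    have := dist_le w'
    change lay.dist (((n : ℤ), (0 : ℤ)), true) ((x, y), b) < _
    omega
  · right
    obtain ⟨w', hw'⟩ := shorter (D := (x + n).natAbs) hn (by omega) hfar h2' h3' b h4 h5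
      (-(n : ℤ), (0 : ℤ)) (x, y) (by simp) (by simp)
    rw [SimpleGraph.dist_comm, ← hw, ← h1]
    have := dist_le w'
    change lay.dist ((-(n : ℤ), (0 : ℤ)), true) ((x, y), b) < _
    omega

/-- A walk of length `L` changes the first coordinate by at most `2 L`. -/
theorem lip {p q : PV} (w : lay.Walk p q) : |p.1.1 - q.1.1| ≤ 2 * w.length := by
  induction w with
  | nil => simp
  | @cons u v z h w ih =>
    have hl : (Walk.cons h w).length = w.length + 1 := rfl
    rw [hl]
    clear hl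
    have h0 : |v.1.1 - u.1.1| ≤ 2 := by
      obtain ⟨-, ⟨-, e2, -⟩ | ⟨-, e2⟩⟩ := h
      · refine e2.trans ?_
        cases u.2 <;> simp [rx]
      · rw [e2]; simp
    rw [abs_le] at *
    push_cast
    omega

theorem lip_dist (p q : PV) : |p.1.1 - q.1.1| ≤ 2 * lay.dist p q := by
  obtain ⟨w, hw⟩ := lay_connected.exists_walk_length_eq_dist p q
  rw [← hw]
  exact lip w

theorem lay_survival : survival lay = 2 := by
  apply le_antisymm
  · refine survival_le lay_connected lay_locFinite 2 fun D => ?_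
    have hn : 16 ≤ 2 * D + 16 := by omega
    refine ⟨{mid, outer ((2 * D + 16 : ℕ) : ℤ), outer (-((2 * D + 16 : ℕ) : ℤ))}, mid, ?_, by simp,
      ?_, ?_⟩
    · exact Finset.card_le_three
    · intro p hp q hq hne
      have h := lip_dist p q
      simp only [Finset.mem_insert, Finset.mem_singleton] at hp hq
      rw [abs_le] at h
      rcases hp with rfl | rfl | rfl <;> rcases hq with rfl | rfl | rfl <;>
        first
        | exact absurd rfl hne
        | (simp only [mid, outer] at h ⊢; push_cast at h ⊢; omega)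
    · have hfin : (((Set.Icc (-(2 * D + 18 : ℤ)) (2 * D + 18)) ×ˢ
          (Set.Icc (-(4 * D + 36 : ℤ)) (4 * D + 36))) ×ˢ (Set.univ : Set Bool)).Finite :=
        ((Set.finite_Icc _ _).prod (Set.finite_Icc _ _)).prod Set.finite_univ
      refine hfin.subset fun q hq => ?_
      by_contra hout
      have hfar : ¬ (q.1.1.natAbs ≤ (2 * D + 16) + 2 ∧ q.1.2.natAbs ≤ 2 * (2 * D + 16) + 4) := by
        intro h
        apply hout
        simp only [Set.mem_prod, Set.mem_Icc, Set.mem_univ, and_true]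
        omega
      rcases dominated hn q hfar with h | h
      · have := hq (outer ((2 * D + 16 : ℕ) : ℤ)) (by simp)
        omega
      · have := hq (outer (-((2 * D + 16 : ℕ) : ℤ))) (by simp)
        omega
  · exact two_le_survival lay_connected lay_locFinite lay_transitive

/-- Quadratic growth. -/
theorem growth (v : PV) (r : ℕ) : r ^ 2 ≤ {u | lay.dist u v ≤ r}.ncard := by
  obtain ⟨⟨x, y⟩, b⟩ := v
  have hfin := ball_finite lay_connected lay_locFinite ((x, y), b) r
  let f : ℕ × ℕ → PV := fun p => ((x + p.1, y + p.2), b)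
  have hf : Function.Injective f := by
    rintro ⟨a, c⟩ ⟨a', c'⟩ h
    simp only [f, Prod.mk.injEq, add_right_inj, Nat.cast_inj, and_true] at h
    exact Prod.ext h.1 h.2
  have hsub : f '' (((Finset.range r) ×ˢ (Finset.range r) : Finset (ℕ × ℕ)) : Set (ℕ × ℕ)) ⊆
      {u | lay.dist u ((x, y), b) ≤ r} := by
    rintro _ ⟨⟨a, c⟩, h, rfl⟩
    simp only [Finset.coe_product, Finset.coe_range, Set.mem_prod, Set.mem_Iio] at h
    obtain ⟨w, hw⟩ := straight b r (x + a, y + c) (x, y)
      (by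
        have h1 : 1 ≤ rx b := by cases b <;> simp [rx]
        have h2 : r ≤ r * rx b := Nat.le_mul_of_pos_right _ h1
        rw [abs_le]; simp only; omega)
      (by
        have h1 : 1 ≤ ry b := by cases b <;> simp [ry]
        have h2 : r ≤ r * ry b := Nat.le_mul_of_pos_right _ h1
        rw [abs_le]; simp only; omega)
    exact (dist_le w).trans hw
  calc r ^ 2 = (f '' (((Finset.range r) ×ˢ (Finset.range r) : Finset (ℕ × ℕ)) :
        Set (ℕ × ℕ))).ncard := by
        rw [Set.ncard_image_of_injective _ hf, Set.ncard_coe_finset, Finset.card_product,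
          Finset.card_range, sq]
    _ ≤ _ := Set.ncard_le_ncard hsub hfin

end Q124.Surv
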